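import Pool.Agent.H429R4.FW.Orbits

/-!
# Gates that see at most one coordinate
-/

namespace Pool.Agent.H429R4.TR

open Finset
open Pool.Agent.H429R4.FW
open Pool.Agent.H429R4.Sem (map_eq_of_shift)

set_option linter.unusedSectionVars false

variable {X I B D L : Type} {G : Type} [AddCommGroup G] [Module (ZMod 2) G] {a : G → X → X}
  {S : Type} (Bm : G →ₗ[ZMod 2] (S → ZMod 2))

/-- The coordinate `s` is not moved by `H`. -/
def Dead (H : Submodule (ZMod 2) G) (s : S) : Prop := ∀ u ∈ H, Bm u s = 0

/-- The vector vanishes at the coordinates that are not moved. -/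
def Kl (H : Submodule (ZMod 2) G) (e : S → ZMod 2) : Prop := ∀ s, Dead Bm H s → e s = 0

/-- At most one coordinate is not moved. -/
def NoTwo (H : Submodule (ZMod 2) G) : Prop := ∀ s s', Dead Bm H s → Dead Bm H s' → s = s'

variable {Bm}

theorem Dead.anti {H H' : Submodule (ZMod 2) G} {s : S} (h : Dead Bm H' s) (hle : H ≤ H') :
    Dead Bm H s := fun u hu => h u (hle hu)

theorem NoTwo.mono {H H' : Submodule (ZMod 2) G} (h : NoTwo Bm H) (hle : H ≤ H') :
    NoTwo Bm H' := fun s s' hs hs' => h s s' (hs.anti hle) (hs'.anti hle)

theorem NoTwo.shift {H H' : Submodule (ZMod 2) G} (hH' : NoTwo Bm H') {e : S → ZMod 2}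
    (he : Kl Bm H e) : ∃ u ∈ H, Kl Bm H' (e + Bm u) := by
  by_cases h1 : ∃ s, Dead Bm H' s
  · obtain ⟨s₀, hs₀⟩ := h1
    by_cases h2 : e s₀ = 0
    · refine ⟨0, H.zero_mem, ?_⟩
      intro s hs
      rw [hH' s s₀ hs hs₀, map_zero, add_zero]
      exact h2
    · have h3 : ¬ Dead Bm H s₀ := fun h => h2 (he s₀ h)
      unfold Dead at h3
      push Not at h3
      obtain ⟨u, hu, hu'⟩ := h3
      refine ⟨u, hu, ?_⟩
      intro s hs
      rw [hH' s s₀ hs hs₀, Pi.add_apply]
      have key : ∀ x y : ZMod 2, x ≠ 0 → y ≠ 0 → x + y = 0 := by decide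
      exact key _ _ h2 hu'
  · exact ⟨0, H.zero_mem, fun s hs => absurd ⟨s, hs⟩ h1⟩

/-- If every gate sees at most one coordinate, the values do not change under shifts that vanish
at the coordinates that are not moved. -/
theorem value_shift' (ha : IsAction a) (enc : X → B → I) (C : Circuit I B D L)
    (ins : (S → ZMod 2) → X) (hins : ∀ u t, a u (ins t) = ins (t + Bm u))
    (loc : B → Set S)
    (hloc1 : ∀ β t e, (∀ s ∈ loc β, e s = 0) → enc (ins (t + e)) β = enc (ins t) β)
    (hloc2 : ∀ β u, (∀ x, enc (a u x) β = enc x β) → ∀ s ∈ loc β, Bm u s = 0)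
    (hno : ∀ g, NoTwo Bm (vfixer ha enc C g))
    (g : C.Gate) (t e : S → ZMod 2) (he : Kl Bm (fixer ha (value enc C g)) e) :
    value enc C g (ins (t + e)) = value enc C g (ins t) := by
  classical
  induction hr : C.rank g using Nat.strong_induction_on generalizing g t e with
  | _ r ih =>
    obtain ⟨s, hs, hu'⟩ := (hno g).shift he
    set e₁ := e + Bm s with he₁
    set t₁ := t + Bm s with ht₁
    have hBB : Bm s + Bm s = 0 := by rw [← map_add, add_self_G, map_zero]
    have e1 : t + e = t₁ + e₁ := by
      rw [ht₁, he₁, add_comm e, ← add_assoc, add_assoc t, hBB, add_zero]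
    have e2 : value enc C g (ins t₁) = value enc C g (ins t) := by
      have h2 := hs (ins t)
      rw [hins] at h2
      exact h2
    rw [e1, ← e2, value_eq, value_eq]
    have hread : (C.read g).map (enc (ins (t₁ + e₁))) = (C.read g).map (enc (ins t₁)) := by
      rcases hβ : C.read g with _ | β
      · rfl
      · simp only [Option.map_some, Option.some.injEq]
        refine hloc1 β t₁ e₁ fun j hj => ?_
        refine hu' j fun u hu => ?_
        refine hloc2 β u ?_ j hj
        rw [mem_vfixer] at hu
        have h6 := congrArg Prod.fst hu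
        unfold view at h6
        simp only [hβ, Option.map_some, Option.some.injEq] at h6
        exact fun x => congrFun h6 x
    rw [hread]
    refine congrArg (C.fn g ((C.read g).map (enc (ins t₁)))) ?_
    -- the wires
    let K : AddSubgroup G := (vfixer ha enc C g).toAddSubgroup
    let F := L × (X → D)
    let T : G → F → F := fun s e => (e.1, fun x => e.2 (a s x))
    have hT0 : ∀ e, T 0 e = e := by
      rintro ⟨l, F⟩
      simp only [T, ha.zero]
    have hTadd : ∀ s s' e, T (s + s') e = T s (T s' e) := by
      rintro s s' ⟨l, F⟩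
      refine congrArg (Prod.mk l) (funext fun x => ?_)
      rw [ha.add']
    let P : (X → D) → G → Prop := fun F s' =>
      s' ∈ K ∧ Kl Bm (fixer ha F) (e₁ + Bm s')
    let c : F → G := fun e => if h : ∃ s', P e.2 s' then Classical.choose h else 0
    have hcK : ∀ e, c e ∈ K := by
      intro e
      change (if h : ∃ s', P e.2 s' then Classical.choose h else 0) ∈ K
      split_ifs with h
      · exact (Classical.choose_spec h).1
      · exact K.zero_mem
    have hc : ∀ s' ∈ K, ∀ e, c (T s' e) = c e := by
      intro s' _ e
      have hP : P (T s' e).2 = P e.2 := by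
        funext s₂
        simp only [P, T]
        rw [fixer_comp]
      simp only [c, hP]
    have hkey := map_eq_of_shift T hT0 hTadd K ((C.wires g).map fun e => (e.1, value enc C e.2))
      (by
        intro s' hs'
        have hs'' : view enc C g (a s') = view enc C g id := hs'
        have h6 := congrArg Prod.snd hs''
        unfold view at h6
        simp only [id] at h6
        rw [Multiset.map_map]
        exact h6)
      (fun e => (e.1, e.2 (ins (t₁ + e₁)))) (fun e => (e.1, e.2 (ins t₁))) c hcK hc
      (by
        intro w hw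
        rw [Multiset.mem_map] at hw
        obtain ⟨⟨l, h⟩, hw, rfl⟩ := hw
        have hex : ∃ s', P (value enc C h) s' := by
          obtain ⟨u, hu, hu2⟩ := ((hno h).mono (vfixer_le ha enc C h)).shift hu'
          exact ⟨u, hu, hu2⟩
        have hce : c (l, value enc C h) = Classical.choose hex := by
          simp only [c]
          rw [dif_pos hex]
        have hsp := (Classical.choose_spec hex).2
        rw [← hce] at hsp
        set s' := c (l, value enc C h) with hs'
        have e3 := ih (C.rank h) (by rw [← hr]; exact C.rank_lt g (l, h) hw) h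
          (t₁ + Bm s') (e₁ + Bm s') hsp rfl
        have hBB' : Bm s' + Bm s' = 0 := by rw [← map_add, add_self_G, map_zero]
        have e4 : (t₁ + Bm s') + (e₁ + Bm s') = t₁ + e₁ := by
          rw [add_comm e₁, ← add_assoc, add_assoc t₁, hBB', add_zero]
        rw [e4] at e3
        simp only [T]
        rw [hins, e3])
    simpa only [Multiset.map_map, Function.comp_def] using hkey

end Pool.Agent.H429R4.TR
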