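import Pool.Agent.H429R4.TR.TriMain

/-!
# All-pairs connectivity by randomized circuits with arbitrary gates
-/

namespace Pool.Agent.H429R4.TR

open Finset
open Pool.Agent.H429R4.FW
open Pool.Agent.H522R3.SW (Vec Pat PP PP_apply enc enc_mem code card_code exists_columns)

set_option linter.unusedSectionVars false

/-- The answers of the circuit are right for the graph `G`: two vertices `p`, `q` are connected by
a path if and only if the value of the gate `out p q` satisfies `dec`. -/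
def RightC {V D L : Type} (C : Circuit Bool (V × V) D L) (out : V → V → C.Gate) (dec : D → Prop)
    (G : SimpleGraph V) : Prop := ∀ p q, dec (value adjG C (out p q) G) ↔ G.Reachable p q

variable {r : ℕ} {Z : Type}

/-- the adjacency of the six vertices -/
def Hp (t : Fin 2 → ZMod 2) (i j : Fin 3) (c c' : ZMod 2) : Prop :=
  ∃ s : Fin 2, (i = s.castSucc ∧ j = s.succ ∧ c' = c + t s) ∨
    (j = s.castSucc ∧ i = s.succ ∧ c = c' + t s)

theorem cs_ne_succ : ∀ s : Fin 2, s.castSucc ≠ s.succ := by decide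

/-- the hard graphs: three pairs, joined by two matchings -/
def pth (T : Fin r × Fin r × Fin r) (t : Fin 2 → ZMod 2) : SimpleGraph (Kx r Z) where
  Adj
    | .inl (i, v, c), .inl (j, v', c') => v = mem3 T i ∧ v' = mem3 T j ∧ Hp t i j c c'
    | _, _ => False
  symm := ⟨by
    rintro (⟨i, v, c⟩ | z) (⟨j, v', c'⟩ | z') h
    · obtain ⟨h1, h2, s, h3⟩ := h
      exact ⟨h2, h1, s, h3.symm⟩
    · exact h
    · exact h
    · exact h⟩
  loopless := ⟨by
    rintro (⟨i, v, c⟩ | z) h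
    · obtain ⟨_, _, s, ⟨h1, h2, _⟩ | ⟨h1, h2, _⟩⟩ := h
      · exact cs_ne_succ s (h1.symm.trans h2)
      · exact cs_ne_succ s (h1.symm.trans h2)
    · exact h⟩

theorem pth_adj (T : Fin r × Fin r × Fin r) (t : Fin 2 → ZMod 2) (i j : Fin 3) (v v' : Fin r)
    (c c' : ZMod 2) : (pth (Z := Z) T t).Adj (.inl (i, v, c)) (.inl (j, v', c')) ↔
      v = mem3 T i ∧ v' = mem3 T j ∧ Hp t i j c c' := Iff.rfl

/-- the invariant of the components -/
def inv3 (t : Fin 2 → ZMod 2) : Kx r Z → ZMod 2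
  | .inl (i, _, c) => c + (![0, t 0, t 0 + t 1] : Fin 3 → ZMod 2) i
  | .inr _ => 0

theorem inv3_adj (T : Fin r × Fin r × Fin r) (t : Fin 2 → ZMod 2) (p q : Kx r Z)
    (h : (pth T t).Adj p q) : inv3 t p = inv3 t q := by
  rcases p with ⟨i, v, c⟩ | z
  · rcases q with ⟨j, v', c'⟩ | z'
    · obtain ⟨_, _, s, h1⟩ := h
      simp only [inv3]
      have key : ∀ (t : Fin 2 → ZMod 2) (s : Fin 2) (c : ZMod 2),
          c + (![0, t 0, t 0 + t 1] : Fin 3 → ZMod 2) s.castSucc =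
            c + t s + (![0, t 0, t 0 + t 1] : Fin 3 → ZMod 2) s.succ := by decide
      rcases h1 with ⟨rfl, rfl, rfl⟩ | ⟨rfl, rfl, rfl⟩
      · exact key t s c
      · exact (key t s c').symm
    · exact h.elim
  · rcases q with ⟨j, v', c'⟩ | z' <;> exact h.elim

theorem inv3_reach (T : Fin r × Fin r × Fin r) (t : Fin 2 → ZMod 2) (p q : Kx r Z)
    (h : (pth T t).Reachable p q) : inv3 t p = inv3 t q := by
  obtain ⟨W⟩ := h
  induction W with
  | nil => rfl
  | cons h _ ih => exact (inv3_adj T t _ _ h).trans ih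

theorem reach_pth (T : Fin r × Fin r × Fin r) (t : Fin 2 → ZMod 2) :
    (pth (Z := Z) T t).Reachable (.inl (0, mem3 T 0, 0)) (.inl (2, mem3 T 2, 0)) ↔
      t 0 + t 1 = 0 := by
  constructor
  · intro h
    have h1 := inv3_reach T t _ _ h
    simp only [inv3] at h1
    have h2 : (0 : ZMod 2) + (![0, t 0, t 0 + t 1] : Fin 3 → ZMod 2) 0 = 0 := by simp
    have h3 : (0 : ZMod 2) + (![0, t 0, t 0 + t 1] : Fin 3 → ZMod 2) 2 = t 0 + t 1 := by simp
    rw [h2, h3] at h1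
    exact h1.symm
  · intro h
    have h1 : (pth (Z := Z) T t).Adj (.inl (0, mem3 T 0, 0)) (.inl (1, mem3 T 1, t 0)) :=
      ⟨rfl, rfl, 0, Or.inl ⟨rfl, rfl, (zero_add _).symm⟩⟩
    have h2 : (pth (Z := Z) T t).Adj (.inl (1, mem3 T 1, t 0)) (.inl (2, mem3 T 2, 0)) :=
      ⟨rfl, rfl, 1, Or.inl ⟨rfl, rfl, h.symm⟩⟩
    exact h1.reachable.trans h2.reachable

section one

variable {κ : ℕ} (a : Fin r → Vec κ)

/-- the change of the two parameters of a triple -/
def BP (T : Fin r × Fin r × Fin r) : Gp κ →ₗ[ZMod 2] (Fin 2 → ZMod 2) where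
  toFun μ := fun s => xi a T μ s.castSucc + xi a T μ s.succ
  map_add' μ ν := by
    funext i
    simp only [xi, map_add, cmp_add, Pi.add_apply]
    ring
  map_smul' c μ := by
    have hc : c = 0 ∨ c = 1 := by
      revert c
      decide
    rcases hc with rfl | rfl
    · funext i
      simp only [xi, zero_smul, map_zero, cmp_zero, Pi.zero_apply, add_zero]
    · simp only [one_smul, RingHom.id_apply]

theorem BP_apply (T : Fin r × Fin r × Fin r) (μ : Gp κ) (s : Fin 2) :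
    BP a T μ s = xi a T μ s.castSucc + xi a T μ s.succ := rfl

theorem Hp_move (t : Fin 2 → ZMod 2) (ξ : Fin 3 → ZMod 2) (i j : Fin 3) (c c' : ZMod 2) :
    Hp t i j (c + ξ i) (c' + ξ j) ↔ Hp (fun s => t s + (ξ s.castSucc + ξ s.succ)) i j c c' := by
  unfold Hp
  constructor
  · rintro ⟨s, ⟨rfl, rfl, h⟩ | ⟨rfl, rfl, h⟩⟩
    · exact ⟨s, Or.inl ⟨rfl, rfl, (z2_move _ _ _ _ _).1 h⟩⟩
    · exact ⟨s, Or.inr ⟨rfl, rfl, (z2_move _ _ _ _ _).1 h⟩⟩
  · rintro ⟨s, ⟨rfl, rfl, h⟩ | ⟨rfl, rfl, h⟩⟩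
    · exact ⟨s, Or.inl ⟨rfl, rfl, (z2_move _ _ _ _ _).2 h⟩⟩
    · exact ⟨s, Or.inr ⟨rfl, rfl, (z2_move _ _ _ _ _).2 h⟩⟩

theorem actG_pth (T : Fin r × Fin r × Fin r) (μ : Gp κ) (t : Fin 2 → ZMod 2) :
    actG (Z := Z) a μ (pth T t) = pth T (t + BP a T μ) := by
  ext p q
  change (pth T t).Adj (swG (cmp (PP a μ)) p) (swG (cmp (PP a μ)) q) ↔ _
  rcases p with ⟨i, v, c⟩ | z
  · rcases q with ⟨j, v', c'⟩ | z'
    · change v = mem3 T i ∧ v' = mem3 T j ∧ Hp t i j (c + cmp (PP a μ) i v)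
        (c' + cmp (PP a μ) j v') ↔ v = mem3 T i ∧ v' = mem3 T j ∧ Hp (t + BP a T μ) i j c c'
      constructor
      · rintro ⟨rfl, rfl, h⟩
        exact ⟨rfl, rfl, (Hp_move t (xi a T μ) i j c c').1 h⟩
      · rintro ⟨rfl, rfl, h⟩
        exact ⟨rfl, rfl, (Hp_move t (xi a T μ) i j c c').2 h⟩
    · exact Iff.rfl
  · rcases q with ⟨j, v', c'⟩ | z' <;> exact Iff.rfl

/-- the parameters on which the adjacency of two vertices depends -/
def locP (T : Fin r × Fin r × Fin r) : Kx r Z × Kx r Z → Set (Fin 2)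
  | (.inl (i, v, _), .inl (j, v', _)) =>
      {s | v = mem3 T i ∧ v' = mem3 T j ∧
        ((i = s.castSucc ∧ j = s.succ) ∨ (j = s.castSucc ∧ i = s.succ))}
  | _ => ∅

theorem locP1 (T : Fin r × Fin r × Fin r) (β : Kx r Z × Kx r Z) (t e : Fin 2 → ZMod 2)
    (h : ∀ s ∈ locP T β, e s = 0) : adjG (pth T (t + e)) β = adjG (pth T t) β := by
  unfold adjG
  rw [decide_eq_decide]
  rcases β with ⟨⟨i, v, c⟩ | z, ⟨j, v', c'⟩ | z'⟩
  · rw [pth_adj, pth_adj]
    have key : ∀ s : Fin 2, (i = s.castSucc ∧ j = s.succ) ∨ (j = s.castSucc ∧ i = s.succ) →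
        v = mem3 T i → v' = mem3 T j → (t + e) s = t s := by
      intro s hs h1 h2
      rw [Pi.add_apply, h s ⟨h1, h2, hs⟩, add_zero]
    constructor
    · rintro ⟨h1, h2, s, ⟨h3, h4, h5⟩ | ⟨h3, h4, h5⟩⟩
      · refine ⟨h1, h2, s, Or.inl ⟨h3, h4, ?_⟩⟩
        rw [← key s (Or.inl ⟨h3, h4⟩) h1 h2]
        exact h5
      · refine ⟨h1, h2, s, Or.inr ⟨h3, h4, ?_⟩⟩
        rw [← key s (Or.inr ⟨h3, h4⟩) h1 h2]
        exact h5
    · rintro ⟨h1, h2, s, ⟨h3, h4, h5⟩ | ⟨h3, h4, h5⟩⟩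
      · refine ⟨h1, h2, s, Or.inl ⟨h3, h4, ?_⟩⟩
        rw [key s (Or.inl ⟨h3, h4⟩) h1 h2]
        exact h5
      · refine ⟨h1, h2, s, Or.inr ⟨h3, h4, ?_⟩⟩
        rw [key s (Or.inr ⟨h3, h4⟩) h1 h2]
        exact h5
  · exact Iff.rfl
  · exact Iff.rfl
  · exact Iff.rfl

theorem locP2 (T : Fin r × Fin r × Fin r) (β : Kx r Z × Kx r Z) (μ : Gp κ)
    (h : ∀ G, adjG (actG (Z := Z) a μ G) β = adjG G β) :
    ∀ s ∈ locP T β, BP a T μ s = 0 := by
  classical
  intro s hs
  rcases β with ⟨⟨i, v, c⟩ | z, ⟨j, v', c'⟩ | z'⟩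
  · obtain ⟨rfl, rfl, hs⟩ := hs
    have hij : i ≠ j := by
      rintro rfl
      rcases hs with ⟨h1, h2⟩ | ⟨h1, h2⟩
      · exact cs_ne_succ s (h1.symm.trans h2)
      · exact cs_ne_succ s (h1.symm.trans h2)
    let p : Kx r Z := .inl (i, mem3 T i, c)
    let q : Kx r Z := .inl (j, mem3 T j, c')
    have hpq : p ≠ q := by
      intro h1
      have h2 : (i, mem3 T i, c) = (j, mem3 T j, c') := Sum.inl_injective h1
      exact hij (congrArg Prod.fst h2)
    have h1 := h (SimpleGraph.fromEdgeSet {s(p, q)})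
    unfold adjG at h1
    rw [decide_eq_decide] at h1
    have h2 : (SimpleGraph.fromEdgeSet {s(p, q)}).Adj p q := by
      rw [SimpleGraph.fromEdgeSet_adj]
      exact ⟨rfl, hpq⟩
    have h3 : (SimpleGraph.fromEdgeSet {s(p, q)}).Adj (swG (cmp (PP a μ)) p)
        (swG (cmp (PP a μ)) q) := h1.2 h2
    rw [SimpleGraph.fromEdgeSet_adj] at h3
    have h4 : s(swG (cmp (PP a μ)) p, swG (cmp (PP a μ)) q) = s(p, q) := h3.1
    rw [Sym2.eq_iff] at h4
    have h5 : swG (cmp (PP a μ)) p = .inl (i, mem3 T i, c + xi a T μ i) := rfl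
    have h6 : swG (cmp (PP a μ)) q = .inl (j, mem3 T j, c' + xi a T μ j) := rfl
    rw [h5, h6] at h4
    rcases h4 with ⟨h7, h8⟩ | ⟨h7, h8⟩
    · have h9 : (i, mem3 T i, c + xi a T μ i) = (i, mem3 T i, c) := Sum.inl_injective h7
      have h10 : (j, mem3 T j, c' + xi a T μ j) = (j, mem3 T j, c') := Sum.inl_injective h8
      simp only [Prod.mk.injEq, true_and, add_eq_left] at h9 h10
      rw [BP_apply]
      rcases hs with ⟨hi, hj⟩ | ⟨hj, hi⟩
      · rw [← hi, ← hj, h9, h10, add_zero]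
      · rw [← hi, ← hj, h9, h10, add_zero]
    · exfalso
      have h9 : (i, mem3 T i, c + xi a T μ i) = (j, mem3 T j, c') := Sum.inl_injective h7
      exact hij (congrArg Prod.fst h9)
  · exact hs.elim
  · exact hs.elim
  · exact hs.elim

/-- If no gate sees the triple, the circuit errs on half of the graphs. -/
theorem not_sees_errs_conn (T : Fin r × Fin r × Fin r) {D L : Type}
    (C : Circuit Bool (Kx r Z × Kx r Z) D L) (out : Kx r Z → Kx r Z → C.Gate) (dec : D → Prop)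
    (hno : ¬ ∃ g, SeesT a (vfixer (actG_isAction (Z := Z) a) adjG C g) T) :
    ∃ e : Fin 2 → ZMod 2, ∀ t, ¬ RightC C out dec (pth T t) ∨
      ¬ RightC C out dec (pth T (t + e)) := by
  have hno' : ∀ g, NoTwo (BP a T) (vfixer (actG_isAction (Z := Z) a) adjG C g) := by
    intro g s s' hs hs'
    by_contra hne
    apply hno
    refine ⟨g, fun μ hμ => ?_⟩
    have h01 : Dead (BP a T) (vfixer (actG_isAction (Z := Z) a) adjG C g) 0 ∧
        Dead (BP a T) (vfixer (actG_isAction (Z := Z) a) adjG C g) 1 := by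
      fin_cases s <;> fin_cases s'
      · exact absurd rfl hne
      · exact ⟨hs, hs'⟩
      · exact ⟨hs', hs⟩
      · exact absurd rfl hne
    exact ⟨h01.1 μ hμ, h01.2 μ hμ⟩
  set g₀ := out (.inl (0, mem3 T 0, 0)) (.inl (2, mem3 T 2, 0)) with hg₀
  have hF : NoTwo (BP a T) (fixer (actG_isAction (Z := Z) a) (value adjG C g₀)) :=
    (hno' g₀).mono (vfixer_le _ adjG C g₀)
  obtain ⟨s, hs⟩ : ∃ s, ¬ Dead (BP a T)
      (fixer (actG_isAction (Z := Z) a) (value adjG C g₀)) s := by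
    by_contra hcon
    push Not at hcon
    have := hF 0 1 (hcon 0) (hcon 1)
    exact absurd this (by decide)
  refine ⟨Pi.single s 1, fun t => ?_⟩
  by_contra hcon
  rw [not_or, not_not, not_not] at hcon
  obtain ⟨h1, h2⟩ := hcon
  have h3 := value_shift' (actG_isAction (Z := Z) a) adjG C (pth T)
    (fun μ t => actG_pth a T μ t) (locP T) (fun β t e h => locP1 T β t e h)
    (fun β μ h => locP2 a T β μ h) hno' g₀ t (Pi.single s 1) (by
      intro s' hs'
      have hne : s' ≠ s := by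
        rintro rfl
        exact hs hs'
      exact Pi.single_eq_of_ne hne _)
  have h4 := h1 (.inl (0, mem3 T 0, 0)) (.inl (2, mem3 T 2, 0))
  have h5 := h2 (.inl (0, mem3 T 0, 0)) (.inl (2, mem3 T 2, 0))
  rw [← hg₀, reach_pth] at h4 h5
  rw [h3, h4] at h5
  have key : ∀ (t : Fin 2 → ZMod 2) (s : Fin 2), ¬ (t 0 + t 1 = 0 ↔
      (t + Pi.single s 1 : Fin 2 → ZMod 2) 0 + (t + Pi.single s 1 : Fin 2 → ZMod 2) 1 = 0) := by
    decide
  exact key t s h5

end one

open Classical in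
/-- **Randomized circuits for all-pairs connectivity.** -/
theorem conn_bound (r : ℕ) (hr : 1 ≤ r) :
    ∃ Γ : AddSubgroup (Fin r → ZMod 2), Nat.card Γ ≤ 2 * r ∧
      ∀ (Z Ω : Type) [Fintype Z] [Fintype Ω] (p : Ω → ℝ),
        (∀ ω, 0 ≤ p ω) → ∑ ω, p ω = 1 →
        ∀ (D L : Type) (dec : D → Prop) (C : Ω → Circuit Bool (Kx r Z × Kx r Z) D L)
          (out : ∀ ω, Kx r Z → Kx r Z → (C ω).Gate) (ε : ℝ),
          (∀ G : SimpleGraph (Kx r Z), ∑ ω with ¬ RightC (C ω) (out ω) dec G, p ω ≤ ε) →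
          ∀ A : Set (Kx r Z → Kx r Z),
            (∀ x : Fin 3 → Fin r → ZMod 2, (∀ i, x i ∈ Γ) → swG x ∈ A) →
            (1 - 2 * ε) * (r : ℝ) ^ 3 ≤
              ∑ ω, p ω * (numWirings adjG (C ω) (pullG '' A) : ℝ) := by
  obtain ⟨κ, hκ, a, ha, -⟩ := exists_columns r hr
  refine ⟨code a, (card_code a).trans hκ, ?_⟩
  intro Z Ω _ _ p hp hp1 D L dec C out ε herr A hA
  let S : (Fin r × Fin r × Fin r) → Ω → Prop := fun T ω =>
    ∃ g, SeesT a (vfixer (actG_isAction (Z := Z) a) adjG (C ω) g) T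
  have hT : ∀ T, 1 - 2 * ε ≤ ∑ ω with S T ω, p ω := by
    intro T
    have h1 : ∑ t : Fin 2 → ZMod 2, ∑ ω with ¬ RightC (C ω) (out ω) dec (pth T t), p ω ≤
        4 * ε := by
      refine (Finset.sum_le_sum fun t _ => herr (pth T t)).trans ?_
      rw [Finset.sum_const, nsmul_eq_mul]
      have h3 : (univ : Finset (Fin 2 → ZMod 2)).card = 4 := by decide
      rw [h3]
      norm_num
    have h2 : ∑ t : Fin 2 → ZMod 2, ∑ ω with ¬ RightC (C ω) (out ω) dec (pth T t), p ω =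
        ∑ ω, p ω * ((univ.filter fun t : Fin 2 → ZMod 2 =>
          ¬ RightC (C ω) (out ω) dec (pth T t)).card : ℝ) := by
      simp only [Finset.sum_filter]
      rw [Finset.sum_comm]
      refine Finset.sum_congr rfl fun ω _ => ?_
      rw [← Finset.sum_filter, Finset.sum_const, nsmul_eq_mul, mul_comm]
    have h3 : 2 * ∑ ω with ¬ S T ω, p ω ≤ 4 * ε := by
      refine le_trans ?_ (h2 ▸ h1)
      rw [Finset.mul_sum, Finset.sum_filter]
      refine Finset.sum_le_sum fun ω _ => ?_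
      by_cases h4 : S T ω
      · rw [if_neg (not_not.2 h4)]
        exact mul_nonneg (hp ω) (Nat.cast_nonneg _)
      · rw [if_pos h4]
        obtain ⟨e, he⟩ := not_sees_errs_conn a T (C ω) (out ω) dec h4
        have h5 : 2 ≤ (univ.filter fun t : Fin 2 → ZMod 2 =>
            ¬ RightC (C ω) (out ω) dec (pth T t)).card := by
          refine half_wrong (e := e) fun t => ?_
          rw [mem_filter, mem_filter]
          rcases he t with h6 | h6
          · exact Or.inl ⟨mem_univ _, h6⟩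
          · exact Or.inr ⟨mem_univ _, h6⟩
        have h6 : (2 : ℝ) ≤ ((univ.filter fun t : Fin 2 → ZMod 2 =>
            ¬ RightC (C ω) (out ω) dec (pth T t)).card : ℝ) := by exact_mod_cast h5
        rw [mul_comm]
        exact mul_le_mul_of_nonneg_left h6 (hp ω)
    have h4 := Finset.sum_filter_add_sum_filter_not (univ : Finset Ω) (fun ω => S T ω) p
    rw [hp1] at h4
    linarith
  have h1 : (1 - 2 * ε) * (r : ℝ) ^ 3 ≤ ∑ T : Fin r × Fin r × Fin r, ∑ ω with S T ω, p ω := by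
    have h2 : ∑ _T : Fin r × Fin r × Fin r, (1 - 2 * ε) ≤
        ∑ T : Fin r × Fin r × Fin r, ∑ ω with S T ω, p ω :=
      Finset.sum_le_sum fun T _ => hT T
    rw [Finset.sum_const, nsmul_eq_mul, Finset.card_univ, Fintype.card_prod, Fintype.card_prod,
      Fintype.card_fin] at h2
    push_cast at h2
    calc (1 - 2 * ε) * (r : ℝ) ^ 3 = (r : ℝ) * ((r : ℝ) * (r : ℝ)) * (1 - 2 * ε) := by ring
      _ ≤ _ := h2
  refine h1.trans ?_
  have h2 : ∑ T : Fin r × Fin r × Fin r, ∑ ω with S T ω, p ω =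
      ∑ ω, p ω * ((univ.filter fun T : Fin r × Fin r × Fin r => S T ω).card : ℝ) := by
    simp only [Finset.sum_filter]
    rw [Finset.sum_comm]
    refine Finset.sum_congr rfl fun ω _ => ?_
    rw [← Finset.sum_filter, Finset.sum_const, nsmul_eq_mul, mul_comm]
  rw [h2]
  refine Finset.sum_le_sum fun ω _ => mul_le_mul_of_nonneg_left ?_ (hp ω)
  have h3 := seen_le ha (actG_isAction (Z := Z) a) adjG (C ω)
  have h4 : numWirings adjG (C ω) (Set.range (actG (Z := Z) a)) ≤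
      numWirings adjG (C ω) (pullG '' A) := by
    refine numWiringsG_mono (C ω) ?_
    rintro _ ⟨μ, rfl⟩
    refine ⟨_, hA (cmp (PP a μ)) ?_, rfl⟩
    intro i
    fin_cases i
    · exact enc_mem a μ.1
    · exact enc_mem a μ.2.1
    · exact enc_mem a μ.2.2
  exact_mod_cast h3.trans h4

end Pool.Agent.H429R4.TR
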