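import Pool.Agent.H429R4.TR.Abs
import Pool.Agent.H522R3.SW.Prod

/-!
# The triples seen by the gates of a circuit
-/

namespace Pool.Agent.H429R4.TR

open Finset
open Pool.Agent.H429R4.FW
open Pool.Agent.H522R3.SW (Vec Pat PP PP_apply cA cB cC cA_apply cB_apply cC_apply cols_inj
  card_le_of_inj card_dualAnnihilator two_self enc_mem code card_code exists_columns)

set_option linter.unusedSectionVars false

/-- A subspace is only related to few triples. -/
theorem count_two {r κ : ℕ} {a : Fin r → Vec κ} (ha : Function.Injective a)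
    (K : Submodule (ZMod 2) (Module.Dual (ZMod 2) (Vec κ × Vec κ × Vec κ)))
    (E : Finset (Fin r × Fin r × Fin r))
    (hE : ∀ T ∈ E, cA (PP a) T.1 + cB (PP a) T.2.1 ∈ K ∧ cB (PP a) T.2.1 + cC (PP a) T.2.2 ∈ K) :
    E.card ≤ Nat.card K := by
  classical
  have hbase : ∀ v : Fin r, ∃ w₀ : Fin r, (∃ T ∈ E, T.2.1 = v) →
      cB (PP a) v + cC (PP a) w₀ ∈ K := by
    intro v
    by_cases h : ∃ T ∈ E, T.2.1 = v
    · obtain ⟨T, hT, hv⟩ := h
      refine ⟨T.2.2, fun _ => ?_⟩
      rw [← hv]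
      exact (hE T hT).2
    · exact ⟨v, fun h' => absurd h' h⟩
  choose w₀ hw₀ using hbase
  apply card_le_of_inj K E
    (fun T => cA (PP a) T.1 + cB (PP a) T.2.1 + (cC (PP a) T.2.2 + cC (PP a) (w₀ T.2.1)))
  · intro T hT
    obtain ⟨hA, hB⟩ := hE T hT
    have h3 := hw₀ T.2.1 ⟨T, hT, rfl⟩
    have h4 : cC (PP a) T.2.2 + cC (PP a) (w₀ T.2.1) =
        (cB (PP a) T.2.1 + cC (PP a) T.2.2) +
        (cB (PP a) T.2.1 + cC (PP a) (w₀ T.2.1)) := by
      have h5 : cB (PP a) T.2.1 + cB (PP a) T.2.1 = 0 := two_self _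
      calc cC (PP a) T.2.2 + cC (PP a) (w₀ T.2.1) =
            (cB (PP a) T.2.1 + cB (PP a) T.2.1) +
              (cC (PP a) T.2.2 + cC (PP a) (w₀ T.2.1)) := by rw [h5, zero_add]
        _ = _ := by abel
    rw [h4]
    exact K.add_mem hA (K.add_mem hB h3)
  · intro T _ T' _ h
    obtain ⟨e1, e2, e3⟩ := cols_inj ha h
    refine Prod.ext e1 (Prod.ext e2 (ha ?_))
    rw [e2] at e3
    exact add_right_cancel e3

/-- The group of patterns. -/
abbrev Gp (κ : ℕ) : Type := Vec κ × Vec κ × Vec κ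

/-- The two parameters of a triple are not moved by `H`. -/
def SeesT {r κ : ℕ} (a : Fin r → Vec κ) (H : Submodule (ZMod 2) (Gp κ))
    (T : Fin r × Fin r × Fin r) : Prop :=
  ∀ μ ∈ H, (PP a μ).1 T.1 + (PP a μ).2.1 T.2.1 = 0 ∧ (PP a μ).2.1 T.2.1 + (PP a μ).2.2 T.2.2 = 0

open Classical in
/-- **The number of triples seen by the gates is at most the number of the wirings.** -/
theorem seen_le {X I B D L : Type} {r κ : ℕ} {a : Fin r → Vec κ} (ha : Function.Injective a)
    {α : Gp κ → X → X} (hα : IsAction α) (enc : X → B → I) (C : Circuit I B D L) :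
    (univ.filter fun T : Fin r × Fin r × Fin r =>
      ∃ g, SeesT a (vfixer hα enc C g) T).card ≤ numWirings enc C (Set.range α) := by
  let Hs : Finset (Submodule (ZMod 2) (Gp κ)) :=
    (@Finset.univ C.Gate C.finite).image fun g => vfixer hα enc C g
  have h1 : (univ.filter fun T : Fin r × Fin r × Fin r =>
      ∃ g, SeesT a (vfixer hα enc C g) T) ⊆
      Hs.biUnion fun H => univ.filter fun T => SeesT a H T := by
    intro T hT
    rw [mem_filter] at hT
    obtain ⟨_, g, hg⟩ := hT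
    rw [mem_biUnion]
    refine ⟨vfixer hα enc C g, mem_image_of_mem _ (@Finset.mem_univ _ C.finite g), ?_⟩
    rw [mem_filter]
    exact ⟨mem_univ _, hg⟩
  refine (card_le_card h1).trans (card_biUnion_le.trans ?_)
  have h2 : ∀ H ∈ Hs, (univ.filter fun T : Fin r × Fin r × Fin r => SeesT a H T).card ≤
      Nat.card H.dualAnnihilator := by
    intro H _
    refine count_two ha _ _ ?_
    intro T hT
    have hT' := (mem_filter.mp hT).2
    rw [Submodule.mem_dualAnnihilator, Submodule.mem_dualAnnihilator]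
    exact ⟨fun μ hμ => (hT' μ hμ).1, fun μ hμ => (hT' μ hμ).2⟩
  refine (sum_le_sum h2).trans ?_
  refine sum_index_le hα enc C Hs ?_ (fun H => Nat.card H.dualAnnihilator) ?_
  · intro H hH
    rw [mem_image] at hH
    obtain ⟨g, _, hg⟩ := hH
    exact ⟨g, hg⟩
  · intro H
    rw [card_dualAnnihilator, Nat.card_eq_fintype_card]

end Pool.Agent.H429R4.TR
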