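import Pool.Agent.H429R4.TR.Count
import Pool.Agent.H429R4.MM.Defs

/-!
# Matrix multiplication by randomized circuits with arbitrary gates
-/

namespace Pool.Agent.H429R4.TR

open Finset
open Pool.Agent.H429R4.FW
open Pool.Agent.H429R4.MM (Va sand relabelings)
open Pool.Agent.H522R3.SW (Vec Pat PP PP_apply enc enc_mem code card_code exists_columns)

set_option linter.unusedSectionVars false

/-- The index set of the rows and columns: `r` pairs of indices, and a rest `Z`. -/
abbrev Jx (r : ℕ) (Z : Type) : Type := (Fin r × ZMod 2) ⊕ Z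

/-- The permutation of the index set that swaps the pairs `v` with `x v = 1`. -/
def swp {r : ℕ} {Z : Type} (x : Fin r → ZMod 2) : Jx r Z → Jx r Z
  | .inl (v, c) => .inl (v, c + x v)
  | .inr z => .inr z

variable {r : ℕ} {Z : Type}

theorem swp_swp (x y : Fin r → ZMod 2) (p : Jx r Z) : swp y (swp x p) = swp (x + y) p := by
  rcases p with ⟨v, c⟩ | z
  · simp [swp, add_assoc]
  · rfl

theorem swp_zero (p : Jx r Z) : swp 0 p = p := by
  rcases p with ⟨v, c⟩ | z <;> simp [swp]

/-- the map of the variables given by swaps of the three kinds of indices -/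
abbrev shW (x : Pat r) : Va (Jx r Z) → Va (Jx r Z) :=
  sand (swp x.1) (swp x.2.1) (swp x.2.2)

theorem shW_shW (x y : Pat r) (v : Va (Jx r Z)) : shW y (shW x v) = shW (x + y) v := by
  rcases v with ⟨p, q⟩ | ⟨p, q⟩ <;> simp [sand, swp_swp]

theorem shW_zero (v : Va (Jx r Z)) : shW 0 v = v := by
  rcases v with ⟨p, q⟩ | ⟨p, q⟩ <;> simp [sand, swp_zero]

/-- A pair of matrices, given by its entries. -/
abbrev Mats (M R : Type) : Type := Va M → R

/-- The transform of a pair of matrices under a map of the variables. -/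
def pull {M R : Type} (f : Va M → Va M) (x : Mats M R) : Mats M R := fun v => x (f v)

/-- The entry `(p, q)` of the product of the two matrices. -/
def entry {M R : Type} [Fintype M] [Semiring R] (x : Mats M R) (p q : M) : R :=
  ∑ k, x (.inl (p, k)) * x (.inr (k, q))

/-- the entries as inputs -/
def encM {M R : Type} (x : Mats M R) : Va M → R := x

/-- The circuit multiplies the pair `x` of matrices: the entries of the product are obtained by
`dec` from the values of the gates `out p q`. -/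
def Right {M R D L : Type} [Fintype M] [Semiring R] (C : Circuit R (Va M) D L)
    (out : M → M → C.Gate) (dec : D → R) (x : Mats M R) : Prop :=
  ∀ p q, dec (value encM C (out p q) x) = entry x p q

section act

variable {κ : ℕ} (a : Fin r → Vec κ) (R : Type)

/-- the action -/
def actM (μ : Gp κ) (x : Mats (Jx r Z) R) : Mats (Jx r Z) R := pull (shW (PP a μ)) x

theorem actM_isAction : IsAction (actM (Z := Z) a R) where
  zero x := by
    funext v
    change x (shW (PP a 0) v) = x v
    rw [map_zero, shW_zero]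
  add μ ν x := by
    funext v
    change x (shW (PP a (μ + ν)) v) = x (shW (PP a ν) (shW (PP a μ) v))
    rw [shW_shW, map_add]

/-- the change of the two parameters of a triple -/
def BT (T : Fin r × Fin r × Fin r) : Gp κ →ₗ[ZMod 2] (Fin 2 → ZMod 2) where
  toFun μ := ![(PP a μ).1 T.1 + (PP a μ).2.1 T.2.1, (PP a μ).2.1 T.2.1 + (PP a μ).2.2 T.2.2]
  map_add' μ ν := by
    funext i
    rw [map_add]
    fin_cases i
    · simp
      abel
    · simp
      abel
  map_smul' c μ := by
    funext i
    rw [map_smul]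
    fin_cases i
    · simp [mul_add]
    · simp [mul_add]

variable {R}

/-- the hard matrices -/
def mat [Semiring R] (T : Fin r × Fin r × Fin r) (t : Fin 2 → ZMod 2) : Mats (Jx r Z) R
  | .inl (.inl (u', c), .inl (v', c')) => if u' = T.1 ∧ v' = T.2.1 ∧ c' = c + t 0 then 1 else 0
  | .inr (.inl (v', c), .inl (w', c')) => if v' = T.2.1 ∧ w' = T.2.2 ∧ c' = c + t 1 then 1 else 0
  | _ => 0

theorem mat_zero_one [Semiring R] (T : Fin r × Fin r × Fin r) (t : Fin 2 → ZMod 2)
    (v : Va (Jx r Z)) : mat (R := R) T t v = 0 ∨ mat (R := R) T t v = 1 := by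
  rcases v with ⟨⟨p, c⟩ | z, ⟨q, c'⟩ | z'⟩ | ⟨⟨p, c⟩ | z, ⟨q, c'⟩ | z'⟩
  · change (if _ then (1 : R) else 0) = 0 ∨ (if _ then (1 : R) else 0) = 1
    split_ifs
    · exact Or.inr rfl
    · exact Or.inl rfl
  · exact Or.inl rfl
  · exact Or.inl rfl
  · exact Or.inl rfl
  · change (if _ then (1 : R) else 0) = 0 ∨ (if _ then (1 : R) else 0) = 1
    split_ifs
    · exact Or.inr rfl
    · exact Or.inl rfl
  · exact Or.inl rfl
  · exact Or.inl rfl
  · exact Or.inl rfl

theorem z2_move (c c' x y t : ZMod 2) : c' + y = c + x + t ↔ c' = c + (t + (x + y)) := by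
  revert c c' x y t
  decide

theorem actM_mat [Semiring R] (T : Fin r × Fin r × Fin r) (μ : Gp κ) (t : Fin 2 → ZMod 2) :
    actM (Z := Z) a R μ (mat T t) = mat T (t + BT a T μ) := by
  funext v
  change mat T t (shW (PP a μ) v) = _
  rcases v with ⟨⟨p, c⟩ | z, ⟨q, c'⟩ | z'⟩ | ⟨⟨p, c⟩ | z, ⟨q, c'⟩ | z'⟩ <;>
    simp only [sand, swp, mat]
  · by_cases h1 : p = T.1
    · by_cases h2 : q = T.2.1
      · subst h1 h2
        have h3 : (t + BT a T μ) 0 = t 0 + ((PP a μ).1 T.1 + (PP a μ).2.1 T.2.1) := rfl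
        rw [h3]
        simp only [true_and, z2_move]
      · simp [h2]
    · simp [h1]
  · by_cases h1 : p = T.2.1
    · by_cases h2 : q = T.2.2
      · subst h1 h2
        have h3 : (t + BT a T μ) 1 = t 1 + ((PP a μ).2.1 T.2.1 + (PP a μ).2.2 T.2.2) := rfl
        rw [h3]
        simp only [true_and, z2_move]
      · simp [h2]
    · simp [h1]

theorem entry_mat [Fintype Z] [Semiring R] (T : Fin r × Fin r × Fin r) (t : Fin 2 → ZMod 2) :
    entry (mat (R := R) (Z := Z) T t) (.inl (T.1, 0)) (.inl (T.2.2, 0)) =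
      if t 0 + t 1 = 0 then 1 else 0 := by
  classical
  unfold entry
  rw [Fintype.sum_sum_type, Fintype.sum_prod_type]
  have h0 : ∀ z : Z, mat (R := R) T t (.inl (.inl (T.1, 0), .inr z)) *
      mat (R := R) T t (.inr (.inr z, .inl (T.2.2, 0))) = 0 := by
    intro z
    simp [mat]
  rw [Finset.sum_eq_zero (fun z _ => h0 z), add_zero, Finset.sum_eq_single T.2.1,
    Finset.sum_eq_single (t 0)]
  · simp only [mat, true_and, zero_add, if_true]
    rw [one_mul]
    have key : ∀ x y : ZMod 2, (0 = x + y) ↔ (x + y = 0) := fun x y => eq_comm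
    simp only [key]
  · intro c _ hc
    simp only [mat, true_and, zero_add]
    rw [if_neg hc, zero_mul]
  · intro h
    exact absurd (Finset.mem_univ _) h
  · intro v _ hv
    refine Finset.sum_eq_zero fun c _ => ?_
    simp [mat, hv]
  · intro h
    exact absurd (Finset.mem_univ _) h

end act

open Classical in
/-- the positions of the entries that depend on the parameters -/
def locT (T : Fin r × Fin r × Fin r) : Va (Jx r Z) → Set (Fin 2)
  | .inl (.inl (u', _), .inl (v', _)) => if u' = T.1 ∧ v' = T.2.1 then {0} else ∅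
  | .inr (.inl (v', _), .inl (w', _)) => if v' = T.2.1 ∧ w' = T.2.2 then {1} else ∅
  | _ => ∅

section one

variable {κ : ℕ} (a : Fin r → Vec κ) {R : Type} [Semiring R] [Nontrivial R]

theorem loc1 (T : Fin r × Fin r × Fin r) (β : Va (Jx r Z)) (t e : Fin 2 → ZMod 2)
    (h : ∀ s ∈ locT T β, e s = 0) :
    encM (mat (R := R) T (t + e)) β = encM (mat (R := R) T t) β := by
  change mat T (t + e) β = mat T t β
  rcases β with ⟨⟨p, c⟩ | z, ⟨q, c'⟩ | z'⟩ | ⟨⟨p, c⟩ | z, ⟨q, c'⟩ | z'⟩ <;>
    simp only [mat, locT] at h ⊢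
  · by_cases h1 : p = T.1 ∧ q = T.2.1
    · rw [if_pos h1] at h
      have h2 := h 0 rfl
      have h3 : (t + e) 0 = t 0 := by rw [Pi.add_apply, h2, add_zero]
      rw [h3]
    · rw [if_neg fun h' => h1 ⟨h'.1, h'.2.1⟩, if_neg fun h' => h1 ⟨h'.1, h'.2.1⟩]
  · by_cases h1 : p = T.2.1 ∧ q = T.2.2
    · rw [if_pos h1] at h
      have h2 := h 1 rfl
      have h3 : (t + e) 1 = t 1 := by rw [Pi.add_apply, h2, add_zero]
      rw [h3]
    · rw [if_neg fun h' => h1 ⟨h'.1, h'.2.1⟩, if_neg fun h' => h1 ⟨h'.1, h'.2.1⟩]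

theorem loc2 (T : Fin r × Fin r × Fin r) (β : Va (Jx r Z)) (μ : Gp κ)
    (h : ∀ x, encM (actM (Z := Z) a R μ x) β = encM x β) :
    ∀ s ∈ locT T β, BT a T μ s = 0 := by
  classical
  have h1 : shW (PP a μ) β = β := by
    by_contra hne
    have h2 := h (fun v => if v = β then 1 else 0)
    change (if shW (PP a μ) β = β then (1 : R) else 0) = if β = β then 1 else 0 at h2
    rw [if_neg hne, if_pos rfl] at h2
    exact zero_ne_one h2
  intro s hs
  rcases β with ⟨⟨p, c⟩ | z, ⟨q, c'⟩ | z'⟩ | ⟨⟨p, c⟩ | z, ⟨q, c'⟩ | z'⟩ <;>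
    simp only [locT, Set.mem_empty_iff_false] at hs
  · by_cases h2 : p = T.1 ∧ q = T.2.1
    · rw [if_pos h2] at hs
      obtain ⟨rfl, rfl⟩ := h2
      have hs' : s = 0 := hs
      subst hs'
      simp only [sand, swp, Sum.inl.injEq, Prod.mk.injEq, true_and, add_eq_left] at h1
      change (PP a μ).1 T.1 + (PP a μ).2.1 T.2.1 = 0
      rw [h1.1, h1.2, add_zero]
    · rw [if_neg h2] at hs
      exact hs.elim
  · by_cases h2 : p = T.2.1 ∧ q = T.2.2
    · rw [if_pos h2] at hs
      obtain ⟨rfl, rfl⟩ := h2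
      have hs' : s = 1 := hs
      subst hs'
      simp only [sand, swp, Sum.inr.injEq, Sum.inl.injEq, Prod.mk.injEq, true_and,
        add_eq_left] at h1
      change (PP a μ).2.1 T.2.1 + (PP a μ).2.2 T.2.2 = 0
      rw [h1.1, h1.2, add_zero]
    · rw [if_neg h2] at hs
      exact hs.elim

/-- If no gate sees the triple, the circuit errs on half of the matrices. -/
theorem not_sees_errs [Fintype Z] (T : Fin r × Fin r × Fin r) {D L : Type}
    (C : Circuit R (Va (Jx r Z)) D L) (out : Jx r Z → Jx r Z → C.Gate) (dec : D → R)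
    (hno : ¬ ∃ g, SeesT a (vfixer (actM_isAction (Z := Z) a R) encM C g) T) :
    ∃ e : Fin 2 → ZMod 2, ∀ t, ¬ Right C out dec (mat T t) ∨ ¬ Right C out dec (mat T (t + e)) := by
  have hno' : ∀ g, NoTwo (BT a T) (vfixer (actM_isAction (Z := Z) a R) encM C g) := by
    intro g s s' hs hs'
    by_contra hne
    apply hno
    refine ⟨g, fun μ hμ => ?_⟩
    have h01 : Dead (BT a T) (vfixer (actM_isAction (Z := Z) a R) encM C g) 0 ∧
        Dead (BT a T) (vfixer (actM_isAction (Z := Z) a R) encM C g) 1 := by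
      fin_cases s <;> fin_cases s'
      · exact absurd rfl hne
      · exact ⟨hs, hs'⟩
      · exact ⟨hs', hs⟩
      · exact absurd rfl hne
    exact ⟨h01.1 μ hμ, h01.2 μ hμ⟩
  set g₀ := out (.inl (T.1, 0)) (.inl (T.2.2, 0)) with hg₀
  have hF : NoTwo (BT a T) (fixer (actM_isAction (Z := Z) a R) (value encM C g₀)) :=
    (hno' g₀).mono (vfixer_le _ encM C g₀)
  obtain ⟨s, hs⟩ : ∃ s, ¬ Dead (BT a T)
      (fixer (actM_isAction (Z := Z) a R) (value encM C g₀)) s := by
    by_contra hcon
    push Not at hcon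
    have := hF 0 1 (hcon 0) (hcon 1)
    exact absurd this (by decide)
  refine ⟨Pi.single s 1, fun t => ?_⟩
  by_contra hcon
  rw [not_or, not_not, not_not] at hcon
  obtain ⟨h1, h2⟩ := hcon
  have h3 := value_shift' (actM_isAction (Z := Z) a R) encM C (mat T)
    (fun μ t => actM_mat a T μ t) (locT T) (fun β t e h => loc1 T β t e h)
    (fun β μ h => loc2 a T β μ h) hno' g₀ t (Pi.single s 1) (by
      intro s' hs'
      have hne : s' ≠ s := by
        rintro rfl
        exact hs hs'
      exact Pi.single_eq_of_ne hne _)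
  have h4 := h1 (.inl (T.1, 0)) (.inl (T.2.2, 0))
  have h5 := h2 (.inl (T.1, 0)) (.inl (T.2.2, 0))
  rw [← hg₀, entry_mat] at h4 h5
  rw [h3, h4] at h5
  have h6 : (t + Pi.single s 1 : Fin 2 → ZMod 2) 0 + (t + Pi.single s 1 : Fin 2 → ZMod 2) 1 =
      t 0 + t 1 + 1 := by
    have hs2 : s = 0 ∨ s = 1 := by
      clear * -
      revert s
      decide
    rcases hs2 with rfl | rfl
    · rw [Pi.add_apply, Pi.add_apply, Pi.single_eq_same, Pi.single_eq_of_ne (by decide)]
      ring
    · rw [Pi.add_apply, Pi.add_apply, Pi.single_eq_same, Pi.single_eq_of_ne (by decide)]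
      ring
  rw [h6] at h5
  have key : ∀ z : ZMod 2, z = 0 ∨ z = 1 := by decide
  rcases key (t 0 + t 1) with h | h
  · rw [h, if_pos rfl, if_neg (by decide)] at h5
    exact one_ne_zero h5
  · rw [h, if_neg (by decide), if_pos (by decide)] at h5
    exact zero_ne_one h5

end one

end Pool.Agent.H429R4.TR
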