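import Pool.Agent.H429R4.TR.Mat

/-!
# The expected number of wirings, and the school method
-/

namespace Pool.Agent.H429R4.TR

open Finset
open Pool.Agent.H429R4.FW
open Pool.Agent.H429R4.MM (Va sand relabelings)
open Pool.Agent.H522R3.SW (Vec Pat PP PP_apply enc enc_mem code card_code exists_columns)

set_option linter.unusedSectionVars false

theorem wirings_finite' {M R D L : Type} [Finite M] (C : Circuit R (Va M) D L)
    (A : Set (Va M → Va M)) : (wirings encM C (pull '' A)).Finite := by
  have := C.finite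
  have h1 : wirings encM C (pull '' A) ⊆
      Set.range fun p : C.Gate × (Va M → Va M) => view encM C p.1 (pull p.2) := by
    rintro _ ⟨g, _, ⟨f, _, rfl⟩, rfl⟩
    exact ⟨(g, f), rfl⟩
  exact (Set.finite_range _).subset h1

theorem numWirings_mono {M R D L : Type} [Finite M] (C : Circuit R (Va M) D L)
    {A' : Set (Mats M R → Mats M R)} {A : Set (Va M → Va M)} (h : A' ⊆ pull '' A) :
    numWirings encM C A' ≤ numWirings encM C (pull '' A) := by
  refine Nat.card_mono (wirings_finite' C A) ?_
  rintro _ ⟨g, f, hf, rfl⟩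
  exact ⟨g, f, h hf, rfl⟩

theorem half_wrong {W : Finset (Fin 2 → ZMod 2)} {e : Fin 2 → ZMod 2}
    (h : ∀ t, t ∈ W ∨ t + e ∈ W) : 2 ≤ W.card := by
  classical
  have h1 : (univ : Finset (Fin 2 → ZMod 2)) ⊆ W ∪ W.image fun t => t + e := by
    intro t _
    rw [mem_union, mem_image]
    rcases h t with h2 | h2
    · exact Or.inl h2
    · refine Or.inr ⟨t + e, h2, ?_⟩
      have h3 : e + e = 0 := by
        funext i
        exact CharTwo.add_self_eq_zero (e i)
      rw [add_assoc, h3, add_zero]
  have h2 := card_le_card h1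
  have h3 : (univ : Finset (Fin 2 → ZMod 2)).card = 4 := by decide
  rw [h3] at h2
  have h4 := card_union_le W (W.image fun t => t + e)
  have h5 : (W.image fun t => t + e).card ≤ W.card := card_image_le
  omega

open Classical in
/-- **Randomized circuits for matrix multiplication.** -/
theorem random_bound (r : ℕ) (hr : 1 ≤ r) :
    ∃ Γ : AddSubgroup (Fin r → ZMod 2), Nat.card Γ ≤ 2 * r ∧
      ∀ (R Z Ω : Type) [Semiring R] [Nontrivial R] [Fintype Z] [Fintype Ω] (p : Ω → ℝ),
        (∀ ω, 0 ≤ p ω) → ∑ ω, p ω = 1 →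
        ∀ (D L : Type) (dec : D → R) (C : Ω → Circuit R (Va (Jx r Z)) D L)
          (out : ∀ ω, Jx r Z → Jx r Z → (C ω).Gate) (ε : ℝ),
          (∀ x : Mats (Jx r Z) R, (∀ v, x v = 0 ∨ x v = 1) →
            ∑ ω with ¬ Right (C ω) (out ω) dec x, p ω ≤ ε) →
          ∀ A : Set (Va (Jx r Z) → Va (Jx r Z)),
            (∀ x ∈ Γ, ∀ y ∈ Γ, ∀ z ∈ Γ, sand (swp x) (swp y) (swp z) ∈ A) →
            (1 - 2 * ε) * (r : ℝ) ^ 3 ≤
              ∑ ω, p ω * (numWirings encM (C ω) (pull '' A) : ℝ) := by
  obtain ⟨κ, hκ, a, ha, -⟩ := exists_columns r hr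
  refine ⟨code a, (card_code a).trans hκ, ?_⟩
  intro R Z Ω _ _ _ _ p hp hp1 D L dec C out ε herr A hA
  let S : (Fin r × Fin r × Fin r) → Ω → Prop := fun T ω =>
    ∃ g, SeesT a (vfixer (actM_isAction (Z := Z) a R) encM (C ω) g) T
  -- the probability that a triple is seen
  have hT : ∀ T, 1 - 2 * ε ≤ ∑ ω with S T ω, p ω := by
    intro T
    have h1 : ∑ t : Fin 2 → ZMod 2, ∑ ω with ¬ Right (C ω) (out ω) dec (mat T t), p ω ≤
        4 * ε := by
      refine (Finset.sum_le_sum fun t _ => herr (mat T t) (mat_zero_one T t)).trans ?_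
      rw [Finset.sum_const, nsmul_eq_mul]
      have h3 : (univ : Finset (Fin 2 → ZMod 2)).card = 4 := by decide
      rw [h3]
      norm_num
    have h2 : ∑ t : Fin 2 → ZMod 2, ∑ ω with ¬ Right (C ω) (out ω) dec (mat T t), p ω =
        ∑ ω, p ω * ((univ.filter fun t : Fin 2 → ZMod 2 =>
          ¬ Right (C ω) (out ω) dec (mat T t)).card : ℝ) := by
      simp only [Finset.sum_filter]
      rw [Finset.sum_comm]
      refine Finset.sum_congr rfl fun ω _ => ?_
      rw [← Finset.sum_filter, Finset.sum_const, nsmul_eq_mul, mul_comm]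
    have h3 : 2 * ∑ ω with ¬ S T ω, p ω ≤ 4 * ε := by
      refine le_trans ?_ (h2 ▸ h1)
      rw [Finset.mul_sum, Finset.sum_filter]
      refine Finset.sum_le_sum fun ω _ => ?_
      by_cases h4 : S T ω
      · rw [if_neg (not_not.2 h4)]
        exact mul_nonneg (hp ω) (Nat.cast_nonneg _)
      · rw [if_pos h4]
        obtain ⟨e, he⟩ := not_sees_errs a T (C ω) (out ω) dec h4
        have h5 : 2 ≤ (univ.filter fun t : Fin 2 → ZMod 2 =>
            ¬ Right (C ω) (out ω) dec (mat T t)).card := by
          refine half_wrong (e := e) fun t => ?_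
          rw [mem_filter, mem_filter]
          rcases he t with h6 | h6
          · exact Or.inl ⟨mem_univ _, h6⟩
          · exact Or.inr ⟨mem_univ _, h6⟩
        have h6 : (2 : ℝ) ≤ ((univ.filter fun t : Fin 2 → ZMod 2 =>
            ¬ Right (C ω) (out ω) dec (mat T t)).card : ℝ) := by exact_mod_cast h5
        rw [mul_comm]
        exact mul_le_mul_of_nonneg_left h6 (hp ω)
    have h4 := Finset.sum_filter_add_sum_filter_not (univ : Finset Ω) (fun ω => S T ω) p
    rw [hp1] at h4
    linarith
  -- the expected number of triples seen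
  have h1 : (1 - 2 * ε) * (r : ℝ) ^ 3 ≤ ∑ T : Fin r × Fin r × Fin r, ∑ ω with S T ω, p ω := by
    have h2 : ∑ _T : Fin r × Fin r × Fin r, (1 - 2 * ε) ≤
        ∑ T : Fin r × Fin r × Fin r, ∑ ω with S T ω, p ω :=
      Finset.sum_le_sum fun T _ => hT T
    rw [Finset.sum_const, nsmul_eq_mul, Finset.card_univ, Fintype.card_prod, Fintype.card_prod,
      Fintype.card_fin] at h2
    push_cast at h2
    calc (1 - 2 * ε) * (r : ℝ) ^ 3 = (r : ℝ) * ((r : ℝ) * (r : ℝ)) * (1 - 2 * ε) := by ring
      _ ≤ _ := h2
  refine h1.trans ?_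
  have h2 : ∑ T : Fin r × Fin r × Fin r, ∑ ω with S T ω, p ω =
      ∑ ω, p ω * ((univ.filter fun T : Fin r × Fin r × Fin r => S T ω).card : ℝ) := by
    simp only [Finset.sum_filter]
    rw [Finset.sum_comm]
    refine Finset.sum_congr rfl fun ω _ => ?_
    rw [← Finset.sum_filter, Finset.sum_const, nsmul_eq_mul, mul_comm]
  rw [h2]
  refine Finset.sum_le_sum fun ω _ => mul_le_mul_of_nonneg_left ?_ (hp ω)
  have h3 := seen_le ha (actM_isAction (Z := Z) a R) encM (C ω)
  have h4 : numWirings encM (C ω) (Set.range (actM (Z := Z) a R)) ≤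
      numWirings encM (C ω) (pull '' A) := by
    refine numWirings_mono (C ω) ?_
    rintro _ ⟨μ, rfl⟩
    exact ⟨_, hA _ (enc_mem a μ.1) _ (enc_mem a μ.2.1) _ (enc_mem a μ.2.2), rfl⟩
  exact_mod_cast h3.trans h4

/-! ### The school method -/

/-- the gates of the school method -/
abbrev SG (M : Type) : Type := Va M ⊕ (M × M × M) ⊕ (M × M)

/-- the permutation of the gates given by a relabeling -/
def gmap {M : Type} (π ρ σ : M → M) : SG M → SG M
  | .inl v => .inl (sand π ρ σ v)
  | .inr (.inl (p, k, q)) => .inr (.inl (π p, ρ k, σ q))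
  | .inr (.inr (p, q)) => .inr (.inr (π p, σ q))

/-- The school method as a circuit. -/
abbrev schoolC (M R : Type) [Fintype M] [Semiring R] (o : SG M) : Circuit R (Va M) R Bool where
  Gate := SG M
  finite := inferInstance
  rank
    | .inl _ => 0
    | .inr (.inl _) => 1
    | .inr (.inr _) => 2
  read
    | .inl v => some v
    | .inr _ => none
  wires
    | .inl _ => 0
    | .inr (.inl (p, k, q)) => {(true, .inl (.inl (p, k))), (false, .inl (.inr (k, q)))}
    | .inr (.inr (p, q)) => (univ : Finset M).val.map fun k => (true, .inr (.inl (p, k, q)))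
  rank_lt := by
    rintro (v | ⟨p, k, q⟩ | ⟨p, q⟩) e he
    · simp at he
    · simp only [Multiset.insert_eq_cons, Multiset.mem_cons, Multiset.mem_singleton] at he
      rcases he with rfl | rfl <;> simp
    · rw [Multiset.mem_map] at he
      obtain ⟨k, _, rfl⟩ := he
      simp
  fn
    | .inl _ => fun i _ => i.getD 0
    | .inr (.inl _) => fun _ m => ((m.filter fun e => e.1 = true).map Prod.snd).sum *
        ((m.filter fun e => e.1 = false).map Prod.snd).sum
    | .inr (.inr _) => fun _ m => (m.map Prod.snd).sum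
  out := o

variable {M R : Type} [Fintype M] [Semiring R] (o : SG M)

theorem value_inl (v : Va M) (x : Mats M R) : value encM (schoolC M R o) (.inl v) x = x v := by
  refine (value_eq encM (schoolC M R o) (.inl v) x).trans ?_
  rfl

theorem value_prod (p k q : M) (x : Mats M R) :
    value encM (schoolC M R o) (.inr (.inl (p, k, q))) x =
      x (.inl (p, k)) * x (.inr (k, q)) := by
  refine (value_eq encM (schoolC M R o) (.inr (.inl (p, k, q))) x).trans ?_
  have h : ((schoolC M R o).wires (.inr (.inl (p, k, q)))).map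
      (fun e => (e.1, value encM (schoolC M R o) e.2 x)) =
      {(true, x (.inl (p, k))), (false, x (.inr (k, q)))} := by
    change (Multiset.map _ {(true, (Sum.inl (Sum.inl (p, k)) : SG M)),
      (false, (Sum.inl (Sum.inr (k, q)) : SG M))}) = _
    simp only [Multiset.insert_eq_cons, Multiset.map_cons, Multiset.map_singleton, value_inl]
  rw [h]
  change (((({(true, x (.inl (p, k))), (false, x (.inr (k, q)))} :
    Multiset (Bool × R)).filter fun e => e.1 = true).map Prod.snd).sum *
    ((({(true, x (.inl (p, k))), (false, x (.inr (k, q)))} :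
    Multiset (Bool × R)).filter fun e => e.1 = false).map Prod.snd).sum) = _
  simp [Multiset.insert_eq_cons, Multiset.filter_singleton]

theorem value_sum (p q : M) (x : Mats M R) :
    value encM (schoolC M R o) (.inr (.inr (p, q))) x = entry x p q := by
  refine (value_eq encM (schoolC M R o) (.inr (.inr (p, q))) x).trans ?_
  have h : ((schoolC M R o).wires (.inr (.inr (p, q)))).map
      (fun e => (e.1, value encM (schoolC M R o) e.2 x)) =
      (univ : Finset M).val.map fun k => (true, x (.inl (p, k)) * x (.inr (k, q))) := by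
    change (Multiset.map _ ((univ : Finset M).val.map fun k =>
      (true, (Sum.inr (Sum.inl (p, k, q)) : SG M)))) = _
    rw [Multiset.map_map]
    refine Multiset.map_congr rfl fun k _ => ?_
    simp only [Function.comp_apply, value_prod]
  rw [h]
  change (Multiset.map Prod.snd (Multiset.map _ _)).sum = _
  rw [Multiset.map_map]
  rfl

theorem school_view (π ρ σ : Equiv.Perm M) (g : SG M) :
    view encM (schoolC M R o) g (pull (sand π ρ σ)) =
      view encM (schoolC M R o) (gmap π ρ σ g) id := by
  rcases g with v | ⟨p, k, q⟩ | ⟨p, q⟩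
  · unfold view
    refine Prod.ext ?_ rfl
    change some _ = some _
    rfl
  · unfold view
    refine Prod.ext rfl ?_
    change (Multiset.map _ {(true, (Sum.inl (Sum.inl (p, k)) : SG M)),
        (false, (Sum.inl (Sum.inr (k, q)) : SG M))}) =
      (Multiset.map _ {(true, (Sum.inl (Sum.inl (π p, ρ k)) : SG M)),
        (false, (Sum.inl (Sum.inr (ρ k, σ q)) : SG M))})
    simp only [Multiset.insert_eq_cons, Multiset.map_cons, Multiset.map_singleton, value_inl]
    rfl
  · unfold view
    refine Prod.ext rfl ?_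
    change (Multiset.map _ ((univ : Finset M).val.map fun k =>
      (true, (Sum.inr (Sum.inl (p, k, q)) : SG M)))) =
      (Multiset.map _ ((univ : Finset M).val.map fun k =>
      (true, (Sum.inr (Sum.inl (π p, k, σ q)) : SG M))))
    conv_rhs => rw [← Multiset.map_univ_val_equiv ρ]
    rw [Multiset.map_map, Multiset.map_map, Multiset.map_map]
    refine Multiset.map_congr rfl fun k _ => ?_
    simp only [Function.comp_apply, value_prod]
    rfl

theorem school_wirings :
    numWirings encM (schoolC M R o) (pull '' relabelings M) ≤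
      Fintype.card M ^ 3 + 3 * Fintype.card M ^ 2 := by
  have h1 : wirings encM (schoolC M R o) (pull '' relabelings M) ⊆
      Set.range fun g : SG M => view encM (schoolC M R o) g id := by
    rintro _ ⟨g, _, ⟨_, ⟨π, ρ, σ, rfl⟩, rfl⟩, rfl⟩
    exact ⟨gmap π ρ σ g, (school_view o π ρ σ g).symm⟩
  unfold numWirings
  refine (Nat.card_mono (Set.finite_range _) h1).trans ?_
  refine (Finite.card_range_le _).trans ?_
  rw [Nat.card_eq_fintype_card]
  simp only [Fintype.card_sum, Fintype.card_prod]
  exact le_of_eq (by ring)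

end Pool.Agent.H429R4.TR
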