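import Pool.Agent.H429R4.TR.Conn

/-!
# Repeated squaring as a circuit
-/

namespace Pool.Agent.H429R4.TR

open Finset
open Pool.Agent.H429R4.FW

set_option linter.unusedSectionVars false

/-- a distance, if it is at most `2 ^ ℓ` -/
noncomputable def trunc (ℓ : ℕ) (d : ℕ∞) : ℕ∞ := if d ≤ 2 ^ ℓ then d else ⊤

theorem trunc_of_le {ℓ : ℕ} {d : ℕ∞} (h : d ≤ 2 ^ ℓ) : trunc ℓ d = d := if_pos h

theorem trunc_of_not_le {ℓ : ℕ} {d : ℕ∞} (h : ¬ d ≤ 2 ^ ℓ) : trunc ℓ d = ⊤ := if_neg h

variable {V : Type}

open Classical in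
theorem trunc_zero (G : SimpleGraph V) (p q : V) :
    trunc 0 (G.edist p q) = if p = q then 0 else if adjG G (p, q) = true then 1 else ⊤ := by
  by_cases h1 : p = q
  · subst h1
    rw [if_pos rfl, SimpleGraph.edist_self]
    exact trunc_of_le (by simp)
  · rw [if_neg h1]
    have h3 : adjG G (p, q) = true ↔ G.Adj p q := by
      unfold adjG
      exact decide_eq_true_iff
    by_cases h2 : G.Adj p q
    · rw [if_pos (h3.2 h2), SimpleGraph.edist_eq_one_iff_adj.2 h2]
      exact trunc_of_le (by simp)
    · rw [if_neg (fun h => h2 (h3.1 h))]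
      refine trunc_of_not_le ?_
      rw [pow_zero, SimpleGraph.edist_le_one_iff_adj_or_eq]
      rintro (h | h)
      · exact h2 h
      · exact h1 h

theorem trunc_le_add (G : SimpleGraph V) (ℓ : ℕ) (p k q : V) :
    trunc (ℓ + 1) (G.edist p q) ≤ trunc ℓ (G.edist p k) + trunc ℓ (G.edist k q) := by
  by_cases h1 : G.edist p k ≤ 2 ^ ℓ
  · by_cases h2 : G.edist k q ≤ 2 ^ ℓ
    · rw [trunc_of_le h1, trunc_of_le h2]
      have h3 : G.edist p q ≤ G.edist p k + G.edist k q := SimpleGraph.edist_triangle
      have h4 : G.edist p q ≤ 2 ^ (ℓ + 1) := by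
        refine h3.trans ((add_le_add h1 h2).trans (le_of_eq ?_))
        ring
      rw [trunc_of_le h4]
      exact h3
    · rw [trunc_of_not_le h2, add_top]
      exact le_top
  · rw [trunc_of_not_le h1, top_add]
    exact le_top

theorem exists_mid (G : SimpleGraph V) (ℓ : ℕ) (p q : V) (h : G.edist p q ≤ 2 ^ (ℓ + 1)) :
    ∃ k, trunc ℓ (G.edist p k) + trunc ℓ (G.edist k q) ≤ G.edist p q := by
  have h0 : G.edist p q ≠ ⊤ := by
    intro h1
    rw [h1, top_le_iff] at h
    have h2 : ((2 ^ (ℓ + 1) : ℕ) : ℕ∞) = ⊤ := by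
      rw [← h]
      push_cast
      rfl
    exact ENat.natCast_ne_top _ h2
  obtain ⟨W, hW⟩ := SimpleGraph.exists_walk_of_edist_ne_top h0
  have h1 : W.length ≤ 2 ^ (ℓ + 1) := by
    rw [← hW] at h
    exact_mod_cast h
  have h2 : W.length / 2 ≤ 2 ^ ℓ := by
    rw [pow_succ] at h1
    omega
  have h3 : W.length - W.length / 2 ≤ 2 ^ ℓ := by
    rw [pow_succ] at h1
    omega
  refine ⟨W.getVert (W.length / 2), ?_⟩
  have h4 : G.edist p (W.getVert (W.length / 2)) ≤ ((W.length / 2 : ℕ) : ℕ∞) := by
    refine (SimpleGraph.edist_le (W.take (W.length / 2))).trans ?_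
    rw [SimpleGraph.Walk.take_length]
    exact_mod_cast min_le_left _ _
  have h5 : G.edist (W.getVert (W.length / 2)) q ≤ ((W.length - W.length / 2 : ℕ) : ℕ∞) := by
    refine (SimpleGraph.edist_le (W.drop (W.length / 2))).trans ?_
    rw [SimpleGraph.Walk.drop_length]
  have h6 : ((W.length / 2 : ℕ) : ℕ∞) ≤ 2 ^ ℓ := by exact_mod_cast h2
  have h7 : ((W.length - W.length / 2 : ℕ) : ℕ∞) ≤ 2 ^ ℓ := by exact_mod_cast h3
  rw [trunc_of_le (h4.trans h6), trunc_of_le (h5.trans h7), ← hW]
  refine (add_le_add h4 h5).trans ?_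
  have h8 : W.length / 2 + (W.length - W.length / 2) ≤ W.length := by omega
  exact_mod_cast h8

theorem trunc_succ [Fintype V] (G : SimpleGraph V) (ℓ : ℕ) (p q : V) :
    ((univ : Finset V).val.map fun k => trunc ℓ (G.edist p k) + trunc ℓ (G.edist k q)).inf =
      trunc (ℓ + 1) (G.edist p q) := by
  apply le_antisymm
  · by_cases h : G.edist p q ≤ 2 ^ (ℓ + 1)
    · obtain ⟨k, hk⟩ := exists_mid G ℓ p q h
      rw [trunc_of_le h]
      refine le_trans ?_ hk
      exact Multiset.inf_le (Multiset.mem_map.2 ⟨k, Finset.mem_univ_val _, rfl⟩)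
    · rw [trunc_of_not_le h]
      exact le_top
  · rw [Multiset.le_inf]
    intro b hb
    obtain ⟨k, _, rfl⟩ := Multiset.mem_map.1 hb
    exact trunc_le_add G ℓ p k q

theorem trunc_last [Fintype V] {N : ℕ} (hN : Fintype.card V ≤ 2 ^ N) (G : SimpleGraph V)
    (p q : V) : trunc N (G.edist p q) = G.edist p q := by
  classical
  by_cases h : G.edist p q = ⊤
  · rw [h]
    unfold trunc
    split_ifs <;> rfl
  · obtain ⟨W⟩ := SimpleGraph.reachable_of_edist_ne_top h
    have h1 : W.toPath.1.length < Fintype.card V := W.toPath.2.length_lt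
    refine trunc_of_le ((SimpleGraph.edist_le W.toPath.1).trans ?_)
    exact_mod_cast (h1.le.trans hN)

/-- the gates: distances of pairs, and sums for triples, at every level -/
abbrev DG (N : ℕ) (V : Type) : Type := (Fin (N + 1) × V × V) ⊕ (Fin N × V × V × V)

/-- the wires of a distance gate -/
def dwires (N : ℕ) [Fintype V] (p q : V) (ℓ : Fin (N + 1)) : Multiset (Unit × DG N V) :=
  Fin.cases (motive := fun _ => Multiset (Unit × DG N V)) 0
    (fun s => (univ : Finset V).val.map fun k => ((), .inr (s, p, k, q))) ℓ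

open Classical in
/-- the function of a distance gate -/
noncomputable def dfn (N : ℕ) (p q : V) (ℓ : Fin (N + 1)) :
    Option Bool → Multiset (Unit × ℕ∞) → ℕ∞ :=
  Fin.cases (motive := fun _ => Option Bool → Multiset (Unit × ℕ∞) → ℕ∞)
    (fun i _ => if p = q then 0 else if i.getD false = true then 1 else ⊤)
    (fun _ _ m => (m.map Prod.snd).inf) ℓ

/-- the input read by a distance gate -/
def dread (N : ℕ) (p q : V) (ℓ : Fin (N + 1)) : Option (V × V) :=
  Fin.cases (motive := fun _ => Option (V × V)) (some (p, q)) (fun _ => none) ℓ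

/-- Repeated squaring as a circuit. -/
noncomputable abbrev sqC (N : ℕ) (V : Type) [Fintype V] (o : DG N V) :
    Circuit Bool (V × V) ℕ∞ Unit where
  Gate := DG N V
  finite := inferInstance
  rank
    | .inl (ℓ, _) => 2 * (ℓ : ℕ)
    | .inr (s, _) => 2 * (s : ℕ) + 1
  read
    | .inl (ℓ, p, q) => dread N p q ℓ
    | .inr _ => none
  wires
    | .inl (ℓ, p, q) => dwires N p q ℓ
    | .inr (s, p, k, q) => {((), .inl (s.castSucc, p, k)), ((), .inl (s.castSucc, k, q))}
  rank_lt := by
    rintro (⟨ℓ, p, q⟩ | ⟨s, p, k, q⟩) e he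
    · refine Fin.cases (motive := fun ℓ => e ∈ dwires N p q ℓ → _ < 2 * (ℓ : ℕ)) ?_ ?_ ℓ he
      · intro h
        exact absurd h (Multiset.notMem_zero _)
      · intro s h
        obtain ⟨k, _, rfl⟩ := Multiset.mem_map.1 h
        simp only [Fin.val_succ]
        omega
    · simp only [Multiset.insert_eq_cons, Multiset.mem_cons, Multiset.mem_singleton] at he
      rcases he with rfl | rfl <;> simp
  fn
    | .inl (ℓ, p, q) => dfn N p q ℓ
    | .inr _ => fun _ m => (m.map Prod.snd).sum
  out := o

variable [Fintype V] {N : ℕ} {o : DG N V}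

theorem dvalue_zero (p q : V) (G : SimpleGraph V) :
    value adjG (sqC N V o) (.inl (0, p, q)) G = trunc 0 (G.edist p q) := by
  refine (value_eq adjG (sqC N V o) (.inl (0, p, q)) G).trans ?_
  rw [trunc_zero]
  rfl

theorem svalue_of (s : Fin N) (h : ∀ p q (G : SimpleGraph V),
      value adjG (sqC N V o) (.inl (s.castSucc, p, q)) G = trunc s (G.edist p q))
    (p k q : V) (G : SimpleGraph V) :
    value adjG (sqC N V o) (.inr (s, p, k, q)) G =
      trunc s (G.edist p k) + trunc s (G.edist k q) := by
  refine (value_eq adjG (sqC N V o) (.inr (s, p, k, q)) G).trans ?_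
  have h1 : ((sqC N V o).wires (.inr (s, p, k, q))).map
      (fun e => (e.1, value adjG (sqC N V o) e.2 G)) =
      {((), trunc s (G.edist p k)), ((), trunc s (G.edist k q))} := by
    change (Multiset.map _ {((), (Sum.inl (s.castSucc, p, k) : DG N V)),
      ((), (Sum.inl (s.castSucc, k, q) : DG N V))}) = _
    simp only [Multiset.insert_eq_cons, Multiset.map_cons, Multiset.map_singleton, h]
  rw [h1]
  change (Multiset.map Prod.snd ({((), trunc s (G.edist p k)), ((), trunc s (G.edist k q))} :
    Multiset (Unit × ℕ∞))).sum = _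
  simp [Multiset.insert_eq_cons]

theorem dvalue (ℓ : Fin (N + 1)) (p q : V) (G : SimpleGraph V) :
    value adjG (sqC N V o) (.inl (ℓ, p, q)) G = trunc ℓ (G.edist p q) := by
  induction ℓ using Fin.induction generalizing p q G with
  | zero => exact dvalue_zero p q G
  | succ s ih =>
    refine (value_eq adjG (sqC N V o) (.inl (s.succ, p, q)) G).trans ?_
    have h1 : ((sqC N V o).wires (.inl (s.succ, p, q))).map
        (fun e => (e.1, value adjG (sqC N V o) e.2 G)) =
        (univ : Finset V).val.map fun k =>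
          ((), trunc s (G.edist p k) + trunc s (G.edist k q)) := by
      change (Multiset.map _ ((univ : Finset V).val.map fun k =>
        ((), (Sum.inr (s, p, k, q) : DG N V)))) = _
      rw [Multiset.map_map]
      refine Multiset.map_congr rfl fun k _ => ?_
      simp only [Function.comp_apply]
      rw [svalue_of s ih]
    rw [h1]
    change (Multiset.map Prod.snd (Multiset.map _ _)).inf = _
    rw [Multiset.map_map, Fin.val_succ, ← trunc_succ]
    rfl

theorem svalue (s : Fin N) (p k q : V) (G : SimpleGraph V) :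
    value adjG (sqC N V o) (.inr (s, p, k, q)) G =
      trunc s (G.edist p k) + trunc s (G.edist k q) :=
  svalue_of s (fun p q G => dvalue s.castSucc p q G) p k q G

/-- the permutation of the gates given by a permutation of the vertices -/
def dmap (π : Equiv.Perm V) : DG N V → DG N V
  | .inl (ℓ, p, q) => .inl (ℓ, π p, π q)
  | .inr (s, p, k, q) => .inr (s, π p, π k, π q)

theorem edist_pull (π : Equiv.Perm V) (G : SimpleGraph V) (p q : V) :
    (pullG π G).edist p q = G.edist (π p) (π q) := by
  have key : ∀ (π : Equiv.Perm V) (G : SimpleGraph V) (p q : V),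
      G.edist (π p) (π q) ≤ (pullG π G).edist p q := by
    intro π G p q
    by_cases h : (pullG π G).edist p q = ⊤
    · rw [h]
      exact le_top
    · obtain ⟨W, hW⟩ := SimpleGraph.exists_walk_of_edist_ne_top h
      rw [← hW]
      let f : pullG π G →g G := ⟨π, fun h => h⟩
      refine (SimpleGraph.edist_le (W.map f)).trans ?_
      rw [SimpleGraph.Walk.length_map]
  apply le_antisymm
  · have h1 := key π.symm (pullG π G) (π p) (π q)
    rw [π.symm_apply_apply, π.symm_apply_apply] at h1
    have h2 : pullG π.symm (pullG π G) = G := by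
      ext u v
      change G.Adj (π (π.symm u)) (π (π.symm v)) ↔ G.Adj u v
      rw [π.apply_symm_apply, π.apply_symm_apply]
    rw [h2] at h1
    exact h1
  · exact key π G p q

theorem sq_view (π : Equiv.Perm V) (g : DG N V) :
    view adjG (sqC N V o) g (pullG π) = view adjG (sqC N V o) (dmap π g) id := by
  rcases g with ⟨ℓ, p, q⟩ | ⟨s, p, k, q⟩
  · unfold view
    refine Fin.cases (motive := fun ℓ =>
      (((dread N p q ℓ).map fun c (G : SimpleGraph V) => adjG (pullG π G) c,
        (dwires N p q ℓ).map fun e => (e.1, fun G => value adjG (sqC N V o) e.2 (pullG π G))) :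
        Option (SimpleGraph V → Bool) × Multiset (Unit × (SimpleGraph V → ℕ∞))) =
      ((dread N (π p) (π q) ℓ).map fun c (G : SimpleGraph V) => adjG G c,
        (dwires N (π p) (π q) ℓ).map fun e => (e.1, fun G => value adjG (sqC N V o) e.2 G)))
      ?_ ?_ ℓ
    · refine Prod.ext ?_ rfl
      change some (fun G => adjG (pullG π G) (p, q)) = some (fun G => adjG G (π p, π q))
      simp only [adjG_pull]
    · intro s
      refine Prod.ext rfl ?_
      change (Multiset.map _ ((univ : Finset V).val.map fun k =>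
        ((), (Sum.inr (s, p, k, q) : DG N V)))) =
        (Multiset.map _ ((univ : Finset V).val.map fun k =>
        ((), (Sum.inr (s, π p, k, π q) : DG N V))))
      conv_rhs => rw [← Multiset.map_univ_val_equiv π]
      rw [Multiset.map_map, Multiset.map_map, Multiset.map_map]
      refine Multiset.map_congr rfl fun k _ => ?_
      simp only [Function.comp_apply, svalue, edist_pull]
  · unfold view
    refine Prod.ext rfl ?_
    change (Multiset.map _ {((), (Sum.inl (s.castSucc, p, k) : DG N V)),
      ((), (Sum.inl (s.castSucc, k, q) : DG N V))}) =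
      (Multiset.map _ {((), (Sum.inl (s.castSucc, π p, π k) : DG N V)),
      ((), (Sum.inl (s.castSucc, π k, π q) : DG N V))})
    simp only [Multiset.insert_eq_cons, Multiset.map_cons, Multiset.map_singleton, dvalue,
      edist_pull, id]

theorem sq_wirings :
    numWirings adjG (sqC N V o) (pullG '' {f | ∃ π : Equiv.Perm V, f = π}) ≤
      N * Fintype.card V ^ 3 + (N + 1) * Fintype.card V ^ 2 := by
  have h1 : wirings adjG (sqC N V o) (pullG '' {f | ∃ π : Equiv.Perm V, f = π}) ⊆
      Set.range fun g : DG N V => view adjG (sqC N V o) g id := by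
    rintro _ ⟨g, _, ⟨_, ⟨π, rfl⟩, rfl⟩, rfl⟩
    exact ⟨dmap π g, (sq_view π g).symm⟩
  unfold numWirings
  refine (Nat.card_mono (Set.finite_range _) h1).trans ?_
  refine (Finite.card_range_le _).trans ?_
  rw [Nat.card_eq_fintype_card]
  simp only [Fintype.card_sum, Fintype.card_prod, Fintype.card_fin]
  exact le_of_eq (by ring)

end Pool.Agent.H429R4.TR
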