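import Pool.Agent.H429R4.TR.Random

/-!
# Triangle detection by randomized circuits with arbitrary gates
-/

namespace Pool.Agent.H429R4.TR

open Finset
open Pool.Agent.H429R4.FW
open Pool.Agent.H522R3.SW (Vec Pat PP PP_apply enc enc_mem code card_code exists_columns)

set_option linter.unusedSectionVars false

/-- The vertex set: three families of `r` pairs of vertices, and a rest `Z`. -/
abbrev Kx (r : ℕ) (Z : Type) : Type := (Fin 3 × Fin r × ZMod 2) ⊕ Z

/-- The permutation of the vertices that swaps the pairs `v` of the family `i` with `x i v = 1`. -/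
def swG {r : ℕ} {Z : Type} (x : Fin 3 → Fin r → ZMod 2) : Kx r Z → Kx r Z
  | .inl (i, v, c) => .inl (i, v, c + x i v)
  | .inr z => .inr z

/-- The graph has a triangle. -/
def HasTriangle {V : Type} (G : SimpleGraph V) : Prop := ∃ a b c, G.Adj a b ∧ G.Adj b c ∧ G.Adj a c

open Classical in
/-- The adjacency matrix of a graph, as the inputs of a circuit. -/
noncomputable def adjG {V : Type} (G : SimpleGraph V) : V × V → Bool :=
  fun e => decide (G.Adj e.1 e.2)

/-- The transform of a graph under a map of the vertices. -/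
def pullG {V : Type} (f : V → V) (G : SimpleGraph V) : SimpleGraph V := G.comap f

/-- The answer of the circuit, obtained by `dec` from the value of its output gate, is right for
the graph `G`. -/
def RightT {V D L : Type} (C : Circuit Bool (V × V) D L) (dec : D → Prop) (G : SimpleGraph V) :
    Prop := dec (C.output (adjG G)) ↔ HasTriangle G

variable {r : ℕ} {Z : Type}

theorem swG_swG (x y : Fin 3 → Fin r → ZMod 2) (p : Kx r Z) :
    swG y (swG x p) = swG (x + y) p := by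
  rcases p with ⟨i, v, c⟩ | z
  · simp [swG, add_assoc]
  · rfl

theorem swG_zero (p : Kx r Z) : swG 0 p = p := by
  rcases p with ⟨i, v, c⟩ | z <;> simp [swG]

/-- the components of a pattern -/
def cmp (x : Pat r) : Fin 3 → Fin r → ZMod 2 := ![x.1, x.2.1, x.2.2]

theorem cmp_add (x y : Pat r) : cmp (x + y) = cmp x + cmp y := by
  funext i
  fin_cases i <;> rfl

theorem cmp_zero : cmp (0 : Pat r) = 0 := by
  funext i
  fin_cases i <;> rfl

section act

variable {κ : ℕ} (a : Fin r → Vec κ)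

/-- the action -/
def actG (μ : Gp κ) (G : SimpleGraph (Kx r Z)) : SimpleGraph (Kx r Z) :=
  pullG (swG (cmp (PP a μ))) G

theorem actG_isAction : IsAction (actG (Z := Z) a) where
  zero G := by
    ext p q
    change G.Adj (swG (cmp (PP a 0)) p) (swG (cmp (PP a 0)) q) ↔ G.Adj p q
    rw [map_zero, cmp_zero, swG_zero, swG_zero]
  add μ ν G := by
    ext p q
    change G.Adj (swG (cmp (PP a (μ + ν))) p) (swG (cmp (PP a (μ + ν))) q) ↔
      G.Adj (swG (cmp (PP a ν)) (swG (cmp (PP a μ)) p)) (swG (cmp (PP a ν)) (swG (cmp (PP a μ)) q))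
    rw [swG_swG, swG_swG, map_add, cmp_add]

/-- the members of a triple -/
def mem3 (T : Fin r × Fin r × Fin r) : Fin 3 → Fin r := ![T.1, T.2.1, T.2.2]

/-- the swaps of the three pairs of a triple -/
def xi (T : Fin r × Fin r × Fin r) (μ : Gp κ) (i : Fin 3) : ZMod 2 :=
  cmp (PP a μ) i (mem3 T i)

/-- the change of the three parameters of a triple -/
def BG (T : Fin r × Fin r × Fin r) : Gp κ →ₗ[ZMod 2] (Fin 3 → ZMod 2) where
  toFun μ := fun i => xi a T μ i + xi a T μ (i + 1)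
  map_add' μ ν := by
    funext i
    simp only [xi, map_add, cmp_add, Pi.add_apply]
    ring
  map_smul' c μ := by
    have hc : c = 0 ∨ c = 1 := by
      revert c
      decide
    rcases hc with rfl | rfl
    · funext i
      simp only [xi, zero_smul, map_zero, cmp_zero, Pi.zero_apply, add_zero]
    · simp only [one_smul, RingHom.id_apply]

theorem BG_apply (T : Fin r × Fin r × Fin r) (μ : Gp κ) (i : Fin 3) :
    BG a T μ i = xi a T μ i + xi a T μ (i + 1) := rfl

end act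

/-- the adjacency of the six vertices -/
def Had (t : Fin 3 → ZMod 2) (i j : Fin 3) (c c' : ZMod 2) : Prop :=
  (j = i + 1 ∧ c' = c + t i) ∨ (i = j + 1 ∧ c = c' + t j)

instance (t : Fin 3 → ZMod 2) (i j : Fin 3) (c c' : ZMod 2) : Decidable (Had t i j c c') := by
  unfold Had
  infer_instance

theorem ne_succ : ∀ i : Fin 3, i ≠ i + 1 := by decide

/-- the hard graphs -/
def tri (T : Fin r × Fin r × Fin r) (t : Fin 3 → ZMod 2) : SimpleGraph (Kx r Z) where
  Adj
    | .inl (i, v, c), .inl (j, v', c') => v = mem3 T i ∧ v' = mem3 T j ∧ Had t i j c c'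
    | _, _ => False
  symm := ⟨by
    rintro (⟨i, v, c⟩ | z) (⟨j, v', c'⟩ | z') h
    · exact ⟨h.2.1, h.1, h.2.2.symm⟩
    · exact h
    · exact h
    · exact h⟩
  loopless := ⟨by
    rintro (⟨i, v, c⟩ | z) h
    · rcases h.2.2 with ⟨h1, _⟩ | ⟨h1, _⟩
      · exact ne_succ i h1
      · exact ne_succ i h1
    · exact h⟩

theorem tri_adj (T : Fin r × Fin r × Fin r) (t : Fin 3 → ZMod 2) (i j : Fin 3) (v v' : Fin r)
    (c c' : ZMod 2) : (tri (Z := Z) T t).Adj (.inl (i, v, c)) (.inl (j, v', c')) ↔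
      v = mem3 T i ∧ v' = mem3 T j ∧ Had t i j c c' := Iff.rfl

theorem triangle_six : ∀ t : Fin 3 → ZMod 2,
    (∃ i j k : Fin 3, ∃ c d e : ZMod 2, Had t i j c d ∧ Had t j k d e ∧ Had t i k c e) ↔
      t 0 + t 1 + t 2 = 0 := by
  decide

theorem hasTriangle_tri (T : Fin r × Fin r × Fin r) (t : Fin 3 → ZMod 2) :
    HasTriangle (tri (Z := Z) T t) ↔ t 0 + t 1 + t 2 = 0 := by
  rw [← triangle_six]
  constructor
  · rintro ⟨p, q, s, h1, h2, h3⟩
    rcases p with ⟨i, v, c⟩ | z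
    · rcases q with ⟨j, v', d⟩ | z
      · rcases s with ⟨k, v'', e⟩ | z
        · exact ⟨i, j, k, c, d, e, h1.2.2, h2.2.2, h3.2.2⟩
        · exact h2.elim
      · exact h1.elim
    · exact h1.elim
  · rintro ⟨i, j, k, c, d, e, h1, h2, h3⟩
    exact ⟨.inl (i, mem3 T i, c), .inl (j, mem3 T j, d), .inl (k, mem3 T k, e),
      ⟨rfl, rfl, h1⟩, ⟨rfl, rfl, h2⟩, ⟨rfl, rfl, h3⟩⟩

section one

variable {κ : ℕ} (a : Fin r → Vec κ)

theorem Had_move (t ξ : Fin 3 → ZMod 2) (i j : Fin 3) (c c' : ZMod 2) :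
    Had t i j (c + ξ i) (c' + ξ j) ↔ Had (fun k => t k + (ξ k + ξ (k + 1))) i j c c' := by
  unfold Had
  constructor
  · rintro (⟨rfl, h⟩ | ⟨rfl, h⟩)
    · exact Or.inl ⟨rfl, (z2_move _ _ _ _ _).1 h⟩
    · exact Or.inr ⟨rfl, (z2_move _ _ _ _ _).1 h⟩
  · rintro (⟨rfl, h⟩ | ⟨rfl, h⟩)
    · exact Or.inl ⟨rfl, (z2_move _ _ _ _ _).2 h⟩
    · exact Or.inr ⟨rfl, (z2_move _ _ _ _ _).2 h⟩

theorem actG_tri (T : Fin r × Fin r × Fin r) (μ : Gp κ) (t : Fin 3 → ZMod 2) :
    actG (Z := Z) a μ (tri T t) = tri T (t + BG a T μ) := by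
  ext p q
  change (tri T t).Adj (swG (cmp (PP a μ)) p) (swG (cmp (PP a μ)) q) ↔ _
  rcases p with ⟨i, v, c⟩ | z
  · rcases q with ⟨j, v', c'⟩ | z'
    · change v = mem3 T i ∧ v' = mem3 T j ∧ Had t i j (c + cmp (PP a μ) i v)
        (c' + cmp (PP a μ) j v') ↔ v = mem3 T i ∧ v' = mem3 T j ∧ Had (t + BG a T μ) i j c c'
      constructor
      · rintro ⟨rfl, rfl, h⟩
        exact ⟨rfl, rfl, (Had_move t (xi a T μ) i j c c').1 h⟩
      · rintro ⟨rfl, rfl, h⟩
        exact ⟨rfl, rfl, (Had_move t (xi a T μ) i j c c').2 h⟩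
    · exact Iff.rfl
  · rcases q with ⟨j, v', c'⟩ | z' <;> exact Iff.rfl

open Classical in
/-- the parameters on which the adjacency of two vertices depends -/
def locG (T : Fin r × Fin r × Fin r) : Kx r Z × Kx r Z → Set (Fin 3)
  | (.inl (i, v, _), .inl (j, v', _)) =>
      {s | v = mem3 T i ∧ v' = mem3 T j ∧ ((j = i + 1 ∧ s = i) ∨ (i = j + 1 ∧ s = j))}
  | _ => ∅

theorem locG1 (T : Fin r × Fin r × Fin r) (β : Kx r Z × Kx r Z) (t e : Fin 3 → ZMod 2)
    (h : ∀ s ∈ locG T β, e s = 0) : adjG (tri T (t + e)) β = adjG (tri T t) β := by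
  unfold adjG
  rw [decide_eq_decide]
  rcases β with ⟨⟨i, v, c⟩ | z, ⟨j, v', c'⟩ | z'⟩
  · rw [tri_adj, tri_adj]
    have key : ∀ s, (j = i + 1 ∧ s = i) ∨ (i = j + 1 ∧ s = j) → v = mem3 T i → v' = mem3 T j →
        (t + e) s = t s := by
      intro s hs h1 h2
      rw [Pi.add_apply, h s ⟨h1, h2, hs⟩, add_zero]
    constructor
    · rintro ⟨h1, h2, h3 | h3⟩
      · refine ⟨h1, h2, Or.inl ⟨h3.1, ?_⟩⟩
        rw [← key i (Or.inl ⟨h3.1, rfl⟩) h1 h2]
        exact h3.2
      · refine ⟨h1, h2, Or.inr ⟨h3.1, ?_⟩⟩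
        rw [← key j (Or.inr ⟨h3.1, rfl⟩) h1 h2]
        exact h3.2
    · rintro ⟨h1, h2, h3 | h3⟩
      · refine ⟨h1, h2, Or.inl ⟨h3.1, ?_⟩⟩
        rw [key i (Or.inl ⟨h3.1, rfl⟩) h1 h2]
        exact h3.2
      · refine ⟨h1, h2, Or.inr ⟨h3.1, ?_⟩⟩
        rw [key j (Or.inr ⟨h3.1, rfl⟩) h1 h2]
        exact h3.2
  · exact Iff.rfl
  · exact Iff.rfl
  · exact Iff.rfl

theorem locG2 (T : Fin r × Fin r × Fin r) (β : Kx r Z × Kx r Z) (μ : Gp κ)
    (h : ∀ G, adjG (actG (Z := Z) a μ G) β = adjG G β) :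
    ∀ s ∈ locG T β, BG a T μ s = 0 := by
  classical
  intro s hs
  rcases β with ⟨⟨i, v, c⟩ | z, ⟨j, v', c'⟩ | z'⟩
  · obtain ⟨rfl, rfl, hs⟩ := hs
    have hij : i ≠ j := by
      rintro rfl
      rcases hs with ⟨h1, _⟩ | ⟨h1, _⟩
      · exact ne_succ i h1
      · exact ne_succ i h1
    -- the graph with one edge
    let p : Kx r Z := .inl (i, mem3 T i, c)
    let q : Kx r Z := .inl (j, mem3 T j, c')
    have hpq : p ≠ q := by
      intro h1
      have h2 : (i, mem3 T i, c) = (j, mem3 T j, c') := Sum.inl_injective h1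
      exact hij (congrArg Prod.fst h2)
    have h1 := h (SimpleGraph.fromEdgeSet {s(p, q)})
    unfold adjG at h1
    rw [decide_eq_decide] at h1
    have h2 : (SimpleGraph.fromEdgeSet {s(p, q)}).Adj p q := by
      rw [SimpleGraph.fromEdgeSet_adj]
      exact ⟨rfl, hpq⟩
    have h3 : (SimpleGraph.fromEdgeSet {s(p, q)}).Adj (swG (cmp (PP a μ)) p)
        (swG (cmp (PP a μ)) q) := h1.2 h2
    rw [SimpleGraph.fromEdgeSet_adj] at h3
    have h4 : s(swG (cmp (PP a μ)) p, swG (cmp (PP a μ)) q) = s(p, q) := h3.1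
    rw [Sym2.eq_iff] at h4
    have h5 : swG (cmp (PP a μ)) p = .inl (i, mem3 T i, c + xi a T μ i) := rfl
    have h6 : swG (cmp (PP a μ)) q = .inl (j, mem3 T j, c' + xi a T μ j) := rfl
    rw [h5, h6] at h4
    rcases h4 with ⟨h7, h8⟩ | ⟨h7, h8⟩
    · have h9 : (i, mem3 T i, c + xi a T μ i) = (i, mem3 T i, c) := Sum.inl_injective h7
      have h10 : (j, mem3 T j, c' + xi a T μ j) = (j, mem3 T j, c') := Sum.inl_injective h8
      simp only [Prod.mk.injEq, true_and, add_eq_left] at h9 h10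
      rw [BG_apply]
      rcases hs with ⟨hj, hs'⟩ | ⟨hi, hs'⟩
      · rw [hs', ← hj, h9, h10, add_zero]
      · rw [hs', ← hi, h9, h10, add_zero]
    · exfalso
      have h9 : (i, mem3 T i, c + xi a T μ i) = (j, mem3 T j, c') := Sum.inl_injective h7
      exact hij (congrArg Prod.fst h9)
  · exact hs.elim
  · exact hs.elim
  · exact hs.elim

/-- If no gate sees the triple, the circuit errs on half of the graphs. -/
theorem not_sees_errs_tri (T : Fin r × Fin r × Fin r) {D L : Type}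
    (C : Circuit Bool (Kx r Z × Kx r Z) D L) (dec : D → Prop)
    (hno : ¬ ∃ g, SeesT a (vfixer (actG_isAction (Z := Z) a) adjG C g) T) :
    ∃ e : Fin 3 → ZMod 2, ∀ t, ¬ RightT C dec (tri T t) ∨ ¬ RightT C dec (tri T (t + e)) := by
  have hsum : ∀ μ, BG a T μ 0 + BG a T μ 1 + BG a T μ 2 = 0 := by
    intro μ
    simp only [BG_apply]
    have key : ∀ x y z : ZMod 2, x + y + (y + z) + (z + x) = 0 := by decide
    exact key _ _ _
  have hno' : ∀ g, NoTwo (BG a T) (vfixer (actG_isAction (Z := Z) a) adjG C g) := by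
    intro g s s' hs hs'
    by_contra hne
    apply hno
    refine ⟨g, fun μ hμ => ?_⟩
    have h0 := hs μ hμ
    have h1 := hs' μ hμ
    have h2 := hsum μ
    have key : ∀ (f : Fin 3 → ZMod 2) (s s' : Fin 3), s ≠ s' → f s = 0 → f s' = 0 →
        f 0 + f 1 + f 2 = 0 → f 0 = 0 ∧ f 1 = 0 := by decide
    have h3 := key (BG a T μ) s s' hne h0 h1 h2
    exact ⟨h3.1, h3.2⟩
  have hF : NoTwo (BG a T) (fixer (actG_isAction (Z := Z) a) (value adjG C C.out)) :=
    (hno' C.out).mono (vfixer_le _ adjG C C.out)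
  obtain ⟨s, hs⟩ : ∃ s, ¬ Dead (BG a T)
      (fixer (actG_isAction (Z := Z) a) (value adjG C C.out)) s := by
    by_contra hcon
    push Not at hcon
    have := hF 0 1 (hcon 0) (hcon 1)
    exact absurd this (by decide)
  refine ⟨Pi.single s 1, fun t => ?_⟩
  by_contra hcon
  rw [not_or, not_not, not_not] at hcon
  obtain ⟨h1, h2⟩ := hcon
  have h3 := value_shift' (actG_isAction (Z := Z) a) adjG C (tri T)
    (fun μ t => actG_tri a T μ t) (locG T) (fun β t e h => locG1 T β t e h)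
    (fun β μ h => locG2 a T β μ h) hno' C.out t (Pi.single s 1) (by
      intro s' hs'
      have hne : s' ≠ s := by
        rintro rfl
        exact hs hs'
      exact Pi.single_eq_of_ne hne _)
  unfold RightT at h1 h2
  rw [hasTriangle_tri] at h1 h2
  have h4 : C.output (adjG (tri (Z := Z) T (t + Pi.single s 1))) =
      C.output (adjG (tri T t)) := h3
  rw [h4, h1] at h2
  have key : ∀ (t : Fin 3 → ZMod 2) (s : Fin 3), ¬ (t 0 + t 1 + t 2 = 0 ↔
      (t + Pi.single s 1 : Fin 3 → ZMod 2) 0 + (t + Pi.single s 1 : Fin 3 → ZMod 2) 1 +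
        (t + Pi.single s 1 : Fin 3 → ZMod 2) 2 = 0) := by decide
  exact key t s h2

end one

end Pool.Agent.H429R4.TR
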