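import Pool.Agent.H429R4.TR.Tri

/-!
# Triangle detection: the expected number of wirings, and brute force
-/

namespace Pool.Agent.H429R4.TR

open Finset
open Pool.Agent.H429R4.FW
open Pool.Agent.H522R3.SW (Vec Pat PP PP_apply enc enc_mem code card_code exists_columns)

set_option linter.unusedSectionVars false

theorem numWiringsG_mono {V D L : Type} [Finite V] (C : Circuit Bool (V × V) D L)
    {A' : Set (SimpleGraph V → SimpleGraph V)} {A : Set (V → V)} (h : A' ⊆ pullG '' A) :
    numWirings adjG C A' ≤ numWirings adjG C (pullG '' A) := by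
  have := C.finite
  have hfin : (wirings adjG C (pullG '' A)).Finite := by
    have h1 : wirings adjG C (pullG '' A) ⊆
        Set.range fun p : C.Gate × (V → V) => view adjG C p.1 (pullG p.2) := by
      rintro _ ⟨g, _, ⟨f, _, rfl⟩, rfl⟩
      exact ⟨(g, f), rfl⟩
    exact (Set.finite_range _).subset h1
  refine Nat.card_mono hfin ?_
  rintro _ ⟨g, f, hf, rfl⟩
  exact ⟨g, f, h hf, rfl⟩

theorem half_wrong3 {W : Finset (Fin 3 → ZMod 2)} {e : Fin 3 → ZMod 2}
    (h : ∀ t, t ∈ W ∨ t + e ∈ W) : 4 ≤ W.card := by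
  classical
  have h1 : (univ : Finset (Fin 3 → ZMod 2)) ⊆ W ∪ W.image fun t => t + e := by
    intro t _
    rw [mem_union, mem_image]
    rcases h t with h2 | h2
    · exact Or.inl h2
    · refine Or.inr ⟨t + e, h2, ?_⟩
      have h3 : e + e = 0 := by
        funext i
        exact CharTwo.add_self_eq_zero (e i)
      rw [add_assoc, h3, add_zero]
  have h2 := card_le_card h1
  have h3 : (univ : Finset (Fin 3 → ZMod 2)).card = 8 := by decide
  rw [h3] at h2
  have h4 := card_union_le W (W.image fun t => t + e)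
  have h5 : (W.image fun t => t + e).card ≤ W.card := card_image_le
  omega

open Classical in
/-- **Randomized circuits for triangle detection.** -/
theorem triangle_bound (r : ℕ) (hr : 1 ≤ r) :
    ∃ Γ : AddSubgroup (Fin r → ZMod 2), Nat.card Γ ≤ 2 * r ∧
      ∀ (Z Ω : Type) [Fintype Z] [Fintype Ω] (p : Ω → ℝ),
        (∀ ω, 0 ≤ p ω) → ∑ ω, p ω = 1 →
        ∀ (D L : Type) (dec : D → Prop) (C : Ω → Circuit Bool (Kx r Z × Kx r Z) D L) (ε : ℝ),
          (∀ G : SimpleGraph (Kx r Z), ∑ ω with ¬ RightT (C ω) dec G, p ω ≤ ε) →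
          ∀ A : Set (Kx r Z → Kx r Z),
            (∀ x : Fin 3 → Fin r → ZMod 2, (∀ i, x i ∈ Γ) → swG x ∈ A) →
            (1 - 2 * ε) * (r : ℝ) ^ 3 ≤
              ∑ ω, p ω * (numWirings adjG (C ω) (pullG '' A) : ℝ) := by
  obtain ⟨κ, hκ, a, ha, -⟩ := exists_columns r hr
  refine ⟨code a, (card_code a).trans hκ, ?_⟩
  intro Z Ω _ _ p hp hp1 D L dec C ε herr A hA
  let S : (Fin r × Fin r × Fin r) → Ω → Prop := fun T ω =>
    ∃ g, SeesT a (vfixer (actG_isAction (Z := Z) a) adjG (C ω) g) T
  -- the probability that a triple is seen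
  have hT : ∀ T, 1 - 2 * ε ≤ ∑ ω with S T ω, p ω := by
    intro T
    have h1 : ∑ t : Fin 3 → ZMod 2, ∑ ω with ¬ RightT (C ω) dec (tri T t), p ω ≤
        8 * ε := by
      refine (Finset.sum_le_sum fun t _ => herr (tri T t)).trans ?_
      rw [Finset.sum_const, nsmul_eq_mul]
      have h3 : (univ : Finset (Fin 3 → ZMod 2)).card = 8 := by decide
      rw [h3]
      norm_num
    have h2 : ∑ t : Fin 3 → ZMod 2, ∑ ω with ¬ RightT (C ω) dec (tri T t), p ω =
        ∑ ω, p ω * ((univ.filter fun t : Fin 3 → ZMod 2 =>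
          ¬ RightT (C ω) dec (tri T t)).card : ℝ) := by
      simp only [Finset.sum_filter]
      rw [Finset.sum_comm]
      refine Finset.sum_congr rfl fun ω _ => ?_
      rw [← Finset.sum_filter, Finset.sum_const, nsmul_eq_mul, mul_comm]
    have h3 : 4 * ∑ ω with ¬ S T ω, p ω ≤ 8 * ε := by
      refine le_trans ?_ (h2 ▸ h1)
      rw [Finset.mul_sum, Finset.sum_filter]
      refine Finset.sum_le_sum fun ω _ => ?_
      by_cases h4 : S T ω
      · rw [if_neg (not_not.2 h4)]
        exact mul_nonneg (hp ω) (Nat.cast_nonneg _)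
      · rw [if_pos h4]
        obtain ⟨e, he⟩ := not_sees_errs_tri a T (C ω) dec h4
        have h5 : 4 ≤ (univ.filter fun t : Fin 3 → ZMod 2 =>
            ¬ RightT (C ω) dec (tri T t)).card := by
          refine half_wrong3 (e := e) fun t => ?_
          rw [mem_filter, mem_filter]
          rcases he t with h6 | h6
          · exact Or.inl ⟨mem_univ _, h6⟩
          · exact Or.inr ⟨mem_univ _, h6⟩
        have h6 : (4 : ℝ) ≤ ((univ.filter fun t : Fin 3 → ZMod 2 =>
            ¬ RightT (C ω) dec (tri T t)).card : ℝ) := by exact_mod_cast h5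
        rw [mul_comm]
        exact mul_le_mul_of_nonneg_left h6 (hp ω)
    have h4 := Finset.sum_filter_add_sum_filter_not (univ : Finset Ω) (fun ω => S T ω) p
    rw [hp1] at h4
    linarith
  -- the expected number of triples seen
  have h1 : (1 - 2 * ε) * (r : ℝ) ^ 3 ≤ ∑ T : Fin r × Fin r × Fin r, ∑ ω with S T ω, p ω := by
    have h2 : ∑ _T : Fin r × Fin r × Fin r, (1 - 2 * ε) ≤
        ∑ T : Fin r × Fin r × Fin r, ∑ ω with S T ω, p ω :=
      Finset.sum_le_sum fun T _ => hT T
    rw [Finset.sum_const, nsmul_eq_mul, Finset.card_univ, Fintype.card_prod, Fintype.card_prod,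
      Fintype.card_fin] at h2
    push_cast at h2
    calc (1 - 2 * ε) * (r : ℝ) ^ 3 = (r : ℝ) * ((r : ℝ) * (r : ℝ)) * (1 - 2 * ε) := by ring
      _ ≤ _ := h2
  refine h1.trans ?_
  have h2 : ∑ T : Fin r × Fin r × Fin r, ∑ ω with S T ω, p ω =
      ∑ ω, p ω * ((univ.filter fun T : Fin r × Fin r × Fin r => S T ω).card : ℝ) := by
    simp only [Finset.sum_filter]
    rw [Finset.sum_comm]
    refine Finset.sum_congr rfl fun ω _ => ?_
    rw [← Finset.sum_filter, Finset.sum_const, nsmul_eq_mul, mul_comm]
  rw [h2]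
  refine Finset.sum_le_sum fun ω _ => mul_le_mul_of_nonneg_left ?_ (hp ω)
  have h3 := seen_le ha (actG_isAction (Z := Z) a) adjG (C ω)
  have h4 : numWirings adjG (C ω) (Set.range (actG (Z := Z) a)) ≤
      numWirings adjG (C ω) (pullG '' A) := by
    refine numWiringsG_mono (C ω) ?_
    rintro _ ⟨μ, rfl⟩
    refine ⟨_, hA (cmp (PP a μ)) ?_, rfl⟩
    intro i
    fin_cases i
    · exact enc_mem a μ.1
    · exact enc_mem a μ.2.1
    · exact enc_mem a μ.2.2
  exact_mod_cast h3.trans h4

/-! ### Brute force -/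

/-- the gates of brute force -/
abbrev TG (V : Type) : Type := (V × V) ⊕ (V × V × V) ⊕ Unit

/-- Brute force as a circuit: one AND gate for every triple of vertices, and one OR gate. -/
abbrev bruteC (V : Type) [Fintype V] : Circuit Bool (V × V) Bool Unit where
  Gate := TG V
  finite := inferInstance
  rank
    | .inl _ => 0
    | .inr (.inl _) => 1
    | .inr (.inr _) => 2
  read
    | .inl e => some e
    | .inr _ => none
  wires
    | .inl _ => 0
    | .inr (.inl (a, b, c)) => {((), .inl (a, b)), ((), .inl (b, c)), ((), .inl (a, c))}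
    | .inr (.inr _) => (univ : Finset (V × V × V)).val.map fun t => ((), .inr (.inl t))
  rank_lt := by
    rintro (v | ⟨a, b, c⟩ | u) e he
    · simp at he
    · simp only [Multiset.insert_eq_cons, Multiset.mem_cons, Multiset.mem_singleton] at he
      rcases he with rfl | rfl | rfl <;> simp
    · rw [Multiset.mem_map] at he
      obtain ⟨k, _, rfl⟩ := he
      simp
  fn
    | .inl _ => fun i _ => i.getD false
    | .inr (.inl _) => fun _ m => m.count ((), false) == 0
    | .inr (.inr _) => fun _ m => !(m.count ((), true) == 0)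
  out := .inr (.inr ())

variable {V : Type} [Fintype V]

theorem bvalue_inl (e : V × V) (G : SimpleGraph V) :
    value adjG (bruteC V) (.inl e) G = adjG G e := by
  refine (value_eq adjG (bruteC V) (.inl e) G).trans ?_
  rfl

theorem bvalue_and (a b c : V) (G : SimpleGraph V) :
    value adjG (bruteC V) (.inr (.inl (a, b, c))) G = true ↔
      G.Adj a b ∧ G.Adj b c ∧ G.Adj a c := by
  classical
  have h0 := value_eq adjG (bruteC V) (.inr (.inl (a, b, c))) G
  have h : ((bruteC V).wires (.inr (.inl (a, b, c)))).map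
      (fun e => (e.1, value adjG (bruteC V) e.2 G)) =
      {((), adjG G (a, b)), ((), adjG G (b, c)), ((), adjG G (a, c))} := by
    change (Multiset.map _ {((), (Sum.inl (a, b) : TG V)), ((), (Sum.inl (b, c) : TG V)),
      ((), (Sum.inl (a, c) : TG V))}) = _
    simp only [Multiset.insert_eq_cons, Multiset.map_cons, Multiset.map_singleton, bvalue_inl]
  rw [h] at h0
  rw [h0]
  change (({((), adjG G (a, b)), ((), adjG G (b, c)), ((), adjG G (a, c))} :
    Multiset (Unit × Bool)).count ((), false) == 0) = true ↔ _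
  rw [beq_iff_eq, Multiset.count_eq_zero]
  simp only [Multiset.insert_eq_cons, Multiset.mem_cons, Multiset.mem_singleton, Prod.mk.injEq,
    true_and, not_or, adjG]
  simp

theorem bruteC_right (G : SimpleGraph V) : RightT (bruteC V) (fun d => d = true) G := by
  classical
  unfold RightT
  have h0 := value_eq adjG (bruteC V) (.inr (.inr ())) G
  have h1 : (bruteC V).output (adjG G) = value adjG (bruteC V) (.inr (.inr ())) G := rfl
  rw [h1, h0]
  have h : ((bruteC V).wires (.inr (.inr ()))).map
      (fun e => (e.1, value adjG (bruteC V) e.2 G)) =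
      (univ : Finset (V × V × V)).val.map fun t =>
        ((), value adjG (bruteC V) (.inr (.inl t)) G) := by
    change (Multiset.map _ ((univ : Finset (V × V × V)).val.map fun t =>
      ((), (Sum.inr (Sum.inl t) : TG V)))) = _
    rw [Multiset.map_map]
    rfl
  rw [h]
  change (!((Multiset.map (fun t => ((), value adjG (bruteC V) (.inr (.inl t)) G))
    (univ : Finset (V × V × V)).val).count ((), true) == 0)) = true ↔ _
  rw [Bool.not_eq_true', beq_eq_false_iff_ne, ne_eq, Multiset.count_eq_zero, not_not,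
    Multiset.mem_map]
  constructor
  · rintro ⟨⟨a, b, c⟩, _, ht⟩
    have h2 := (bvalue_and a b c G).1 (congrArg Prod.snd ht)
    exact ⟨a, b, c, h2⟩
  · rintro ⟨a, b, c, h2⟩
    exact ⟨(a, b, c), Finset.mem_univ_val _, by rw [(bvalue_and a b c G).2 h2]⟩

/-- the permutation of the gates given by a permutation of the vertices -/
def bmap (π : Equiv.Perm V) : TG V → TG V
  | .inl e => .inl (π e.1, π e.2)
  | .inr (.inl (a, b, c)) => .inr (.inl (π a, π b, π c))
  | .inr (.inr u) => .inr (.inr u)

theorem adjG_pull (π : Equiv.Perm V) (G : SimpleGraph V) (e : V × V) :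
    adjG (pullG π G) e = adjG G (π e.1, π e.2) := by
  unfold adjG
  rw [decide_eq_decide]
  rfl

theorem bvalue_map (π : Equiv.Perm V) (t : V × V × V) (G : SimpleGraph V) :
    value adjG (bruteC V) (.inr (.inl t)) (pullG π G) =
      value adjG (bruteC V) (.inr (.inl (π t.1, π t.2.1, π t.2.2))) G := by
  rw [Bool.eq_iff_iff]
  obtain ⟨a, b, c⟩ := t
  exact (bvalue_and a b c _).trans (bvalue_and (π a) (π b) (π c) G).symm

theorem brute_view (π : Equiv.Perm V) (g : TG V) :
    view adjG (bruteC V) g (pullG π) = view adjG (bruteC V) (bmap π g) id := by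
  rcases g with e | ⟨a, b, c⟩ | u
  · unfold view
    refine Prod.ext ?_ rfl
    change some (fun G => adjG (pullG π G) e) = some (fun G => adjG G (π e.1, π e.2))
    simp only [adjG_pull]
  · unfold view
    refine Prod.ext rfl ?_
    change (Multiset.map _ {((), (Sum.inl (a, b) : TG V)), ((), (Sum.inl (b, c) : TG V)),
      ((), (Sum.inl (a, c) : TG V))}) = (Multiset.map _ {((), (Sum.inl (π a, π b) : TG V)),
      ((), (Sum.inl (π b, π c) : TG V)), ((), (Sum.inl (π a, π c) : TG V))})
    simp only [Multiset.insert_eq_cons, Multiset.map_cons, Multiset.map_singleton, bvalue_inl,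
      adjG_pull, id]
  · unfold view
    refine Prod.ext rfl ?_
    change (Multiset.map _ ((univ : Finset (V × V × V)).val.map fun t =>
      ((), (Sum.inr (Sum.inl t) : TG V)))) =
      (Multiset.map _ ((univ : Finset (V × V × V)).val.map fun t =>
      ((), (Sum.inr (Sum.inl t) : TG V))))
    conv_rhs => rw [← Multiset.map_univ_val_equiv (Equiv.prodCongr π (Equiv.prodCongr π π))]
    rw [Multiset.map_map, Multiset.map_map, Multiset.map_map]
    refine Multiset.map_congr rfl fun t _ => ?_
    simp only [Function.comp_apply, bvalue_map, id]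
    rfl

theorem brute_wirings :
    numWirings adjG (bruteC V) (pullG '' {f | ∃ π : Equiv.Perm V, f = π}) ≤
      Fintype.card V ^ 3 + Fintype.card V ^ 2 + 1 := by
  have h1 : wirings adjG (bruteC V) (pullG '' {f | ∃ π : Equiv.Perm V, f = π}) ⊆
      Set.range fun g : TG V => view adjG (bruteC V) g id := by
    rintro _ ⟨g, _, ⟨_, ⟨π, rfl⟩, rfl⟩, rfl⟩
    exact ⟨bmap π g, (brute_view π g).symm⟩
  unfold numWirings
  refine (Nat.card_mono (Set.finite_range _) h1).trans ?_
  refine (Finite.card_range_le _).trans ?_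
  rw [Nat.card_eq_fintype_card]
  simp only [Fintype.card_sum, Fintype.card_prod, Fintype.card_unit]
  exact le_of_eq (by ring)

end Pool.Agent.H429R4.TR
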